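import Mathlib

/-!
The model: a continuous-time simple symmetric random walk on the integers among a Poisson field
of moving traps, and the annealed path measure.
-/

open MeasureTheory ProbabilityTheory Filter Topology
open scoped NNReal ENNReal

namespace Pool.Agent.Lib.MP_e5e566_pr

/-- `srwProb n k` is the probability that the discrete-time simple symmetric random walk on the
integers started at `0` is at `k` after `n` steps. -/
noncomputable def srwProb : ℕ → ℤ → ℝ
  | 0, k => if k = 0 then 1 else 0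
  | n + 1, k => (srwProb n (k - 1) + srwProb n (k + 1)) / 2

/-- `ctrwProb l k` is the probability that a Poisson(`l`) number of independent fair `±1` steps
sums to `k`: the law of the displacement during a time `s` of the continuous-time simple symmetric
random walk with jump rate `r`, where `l = r * s`. -/
noncomputable def ctrwProb (l : ℝ) (k : ℤ) : ℝ :=
  ∑' n : ℕ, Real.exp (-l) * l ^ n / (n.factorial : ℝ) * srwProb n k

/-- `X` is a continuous-time simple symmetric random walk on the integers with jump rate `r`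
started at `0`: cadlag paths, independent increments, and the increment over a time interval of
length `s` is a sum of Poisson(`r * s`) many fair `±1` steps. -/
structure IsWalk {Ω : Type*} [MeasurableSpace Ω] (P : Measure Ω) (r : ℝ)
    (X : ℝ≥0 → Ω → ℤ) : Prop where
  measurable : ∀ s, Measurable (X s)
  start : ∀ ω, X 0 ω = 0
  rightCont : ∀ ω s, ContinuousWithinAt (fun u => X u ω) (Set.Ici s) s
  leftLim : ∀ ω s, ∃ v : ℤ, Tendsto (fun u => X u ω) (𝓝[<] s) (𝓝 v)
  indepIncr : HasIndepIncrements X P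
  incrLaw : ∀ s u : ℝ≥0, s ≤ u → ∀ k : ℤ,
    P.real {ω | X u ω - X s ω = k} = ctrwProb (r * ((u : ℝ) - (s : ℝ))) k

/-- The trap model on a probability space: `X` is the walk with jump rate `κ`; `N y` is the number
of traps started at the site `y`, i.i.d. Poisson(`ν`); the trap number `j < N y` started at `y` is
at `y + Y (y, j) s` at time `s`, the `Y (y, j)` being independent walks with jump rate `ρ`;
`X`, all the `N y` and all the `Y (y, j)` are jointly independent. -/
structure IsTrapModel {Ω : Type*} [MeasurableSpace Ω] (P : Measure Ω) (κ ρ : ℝ) (ν : ℝ≥0)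
    (X : ℝ≥0 → Ω → ℤ) (N : ℤ → Ω → ℕ) (Y : ℤ × ℕ → ℝ≥0 → Ω → ℤ) : Prop where
  isProb : IsProbabilityMeasure P
  walk : IsWalk P κ X
  countMeasurable : ∀ y, Measurable (N y)
  countLaw : ∀ y, HasLaw (N y) (poissonMeasure ν) P
  trapWalk : ∀ i, IsWalk P ρ (Y i)
  indepCounts : iIndepFun N P
  indepTraps : iIndepFun (fun i ω s => Y i s ω) P
  indepCountsTraps : IndepFun (fun ω y => N y ω) (fun ω i s => Y i s ω) P
  indepWalk : IndepFun (fun ω s => X s ω)
    (fun ω => ((fun y => N y ω), (fun i s => Y i s ω))) P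

/-- The trap field `ξ(s, x)`: the number of traps at the site `x` at time `s`. -/
noncomputable def trapField {Ω : Type*} (N : ℤ → Ω → ℕ) (Y : ℤ × ℕ → ℝ≥0 → Ω → ℤ)
    (s : ℝ≥0) (x : ℤ) (ω : Ω) : ℝ≥0∞ :=
  ∑' y : ℤ, ∑ j ∈ Finset.range (N y ω), if y + Y (y, j) s ω = x then 1 else 0

open Classical in
/-- The survival weight up to time `t`: `exp (-γ ∫_0^t ξ(s, X s) ds)` for finite `γ`, and for
`γ = ∞` the indicator that `X` never shares a site with a trap on `[0, t]`. -/
noncomputable def survivalWeight {Ω : Type*} (γ : ℝ≥0∞) (X : ℝ≥0 → Ω → ℤ) (N : ℤ → Ω → ℕ)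
    (Y : ℤ × ℕ → ℝ≥0 → Ω → ℤ) (t : ℝ≥0) (ω : Ω) : ℝ≥0∞ :=
  if γ = ∞ then (if ∀ s ≤ t, trapField N Y s (X s ω) ω = 0 then 1 else 0)
  else EReal.exp (-((γ * ∫⁻ s in Set.Icc (0 : ℝ) t,
    trapField N Y s.toNNReal (X s.toNNReal ω) ω : ℝ≥0∞) : EReal))

/-- The annealed measure `P_{γ,t}`: the underlying probability tilted by the survival weight and
normalised by the annealed survival probability `Z_{γ,t}`. -/
noncomputable def annealed {Ω : Type*} [MeasurableSpace Ω] (P : Measure Ω) (γ : ℝ≥0∞)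
    (X : ℝ≥0 → Ω → ℤ) (N : ℤ → Ω → ℕ) (Y : ℤ × ℕ → ℝ≥0 → Ω → ℤ) (t : ℝ≥0) : Measure Ω :=
  (∫⁻ ω, survivalWeight γ X N Y t ω ∂P)⁻¹ • P.withDensity (survivalWeight γ X N Y t)

/-- The rescaled range endpoints `W_t = t^{-1/3} (min_{s ≤ t} X s, max_{s ≤ t} X s)`. -/
noncomputable def rescaledRange {Ω : Type*} (X : ℝ≥0 → Ω → ℤ) (t : ℝ≥0) (ω : Ω) : ℝ × ℝ :=
  ((t : ℝ) ^ (-(1 / 3 : ℝ)) * ⨅ s : Set.Icc (0 : ℝ≥0) t, (X s ω : ℝ),
   (t : ℝ) ^ (-(1 / 3 : ℝ)) * ⨆ s : Set.Icc (0 : ℝ≥0) t, (X s ω : ℝ))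

end Pool.Agent.Lib.MP_e5e566_pr
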