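import Pool.Agent.Lib.MP_e5e566_pr.Defs

/-!
Heat kernel estimates for the continuous-time simple random walk, through the Fourier formula.
-/

open MeasureTheory Real intervalIntegral Finset

namespace Pool.Agent.Lib.MP_e5e566_pr

lemma srwProb_nonneg : ∀ (n : ℕ) (k : ℤ), 0 ≤ srwProb n k
  | 0, k => by unfold srwProb; split_ifs <;> norm_num
  | n + 1, k => by
    unfold srwProb
    have h1 := srwProb_nonneg n (k - 1)
    have h2 := srwProb_nonneg n (k + 1)
    positivity

lemma srwProb_le_one : ∀ (n : ℕ) (k : ℤ), srwProb n k ≤ 1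
  | 0, k => by unfold srwProb; split_ifs <;> norm_num
  | n + 1, k => by
    unfold srwProb
    have h1 := srwProb_le_one n (k - 1)
    have h2 := srwProb_le_one n (k + 1)
    linarith

lemma srw_fourier : ∀ (n : ℕ) (k : ℤ),
    srwProb n k = (1 / π) * ∫ θ in (0 : ℝ)..π, cos (k * θ) * cos θ ^ n
  | 0, k => by
    unfold srwProb
    split_ifs with h
    · subst h
      simp [pi_ne_zero]
    · have hk : (k : ℝ) ≠ 0 := by exact_mod_cast h
      simp only [pow_zero, mul_one]
      rw [intervalIntegral.integral_comp_mul_left (fun x => cos x) hk]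
      simp [integral_cos, sin_int_mul_pi]
  | n + 1, k => by
    unfold srwProb
    rw [srw_fourier n (k - 1), srw_fourier n (k + 1), ← mul_add,
      ← intervalIntegral.integral_add (by apply Continuous.intervalIntegrable; fun_prop)
        (by apply Continuous.intervalIntegrable; fun_prop), mul_div_assoc,
      ← intervalIntegral.integral_div]
    congr 1
    refine intervalIntegral.integral_congr fun θ _ => ?_
    simp only [Int.cast_sub, Int.cast_add, Int.cast_one, sub_mul, add_mul, one_mul, cos_sub,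
      cos_add]
    ring

lemma hasSum_poisson_pow (l c : ℝ) :
    HasSum (fun n : ℕ => exp (-l) * l ^ n / (n.factorial : ℝ) * c ^ n) (exp (-(l * (1 - c)))) := by
  have h := (NormedSpace.expSeries_div_hasSum_exp (l * c)).mul_left (exp (-l))
  rw [← Real.exp_eq_exp_ℝ, ← exp_add] at h
  have e1 : (fun n : ℕ => exp (-l) * l ^ n / (n.factorial : ℝ) * c ^ n)
      = fun i => exp (-l) * ((l * c) ^ i / (i.factorial : ℝ)) := by
    ext n; rw [mul_pow]; ring
  have e2 : -(l * (1 - c)) = -l + l * c := by ring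
  rw [e1, e2]
  exact h

lemma summable_ctrw {l : ℝ} (hl : 0 ≤ l) (k : ℤ) :
    Summable (fun n : ℕ => exp (-l) * l ^ n / (n.factorial : ℝ) * srwProb n k) := by
  refine Summable.of_nonneg_of_le (fun n => ?_) (fun n => ?_) (hasSum_poisson_pow l 1).summable
  · have := srwProb_nonneg n k; positivity
  · have := srwProb_le_one n k
    rw [one_pow]
    gcongr

lemma ctrwProb_nonneg {l : ℝ} (hl : 0 ≤ l) (k : ℤ) : 0 ≤ ctrwProb l k :=
  tsum_nonneg fun n => by have := srwProb_nonneg n k; positivity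

lemma ctrw_fourier {l : ℝ} (hl : 0 ≤ l) (k : ℤ) :
    ctrwProb l k = (1 / π) * ∫ θ in (0 : ℝ)..π, cos (k * θ) * exp (-(l * (1 - cos θ))) := by
  have key : HasSum (fun n : ℕ => ∫ θ in (0 : ℝ)..π,
      exp (-l) * l ^ n / (n.factorial : ℝ) * (cos (k * θ) * cos θ ^ n))
      (∫ θ in (0 : ℝ)..π, cos (k * θ) * exp (-(l * (1 - cos θ)))) := by
    refine intervalIntegral.hasSum_integral_of_dominated_convergence
      (fun n _ => exp (-l) * l ^ n / (n.factorial : ℝ) * 1 ^ n) (fun n => ?_) (fun n => ?_) ?_ ?_ ?_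
    · apply Continuous.aestronglyMeasurable; fun_prop
    · refine Filter.Eventually.of_forall fun θ _ => ?_
      rw [norm_mul, norm_mul, norm_pow, Real.norm_of_nonneg (by positivity), one_pow]
      have h1 : ‖cos (k * θ)‖ ≤ 1 := abs_cos_le_one _
      have h2 : ‖cos θ‖ ^ n ≤ 1 := pow_le_one₀ (norm_nonneg _) (abs_cos_le_one _)
      have h3 : ‖cos (k * θ)‖ * ‖cos θ‖ ^ n ≤ 1 := mul_le_one₀ h1 (by positivity) h2
      gcongr
    · exact Filter.Eventually.of_forall fun θ _ => (hasSum_poisson_pow l 1).summable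
    · exact intervalIntegrable_const
    · refine Filter.Eventually.of_forall fun θ _ => ?_
      have := (hasSum_poisson_pow l (cos θ)).mul_left (cos (k * θ))
      have e1 : (fun n : ℕ => exp (-l) * l ^ n / (n.factorial : ℝ) * (cos (k * θ) * cos θ ^ n))
          = fun i => cos (k * θ) * (exp (-l) * l ^ i / (i.factorial : ℝ) * cos θ ^ i) := by
        ext n; ring
      rw [e1]
      exact this
  have key2 := key.mul_left (1 / π)
  rw [← key2.tsum_eq, ctrwProb]
  congr 1
  ext n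
  rw [srw_fourier, intervalIntegral.integral_const_mul]
  ring

lemma ctrwProb_neg {l : ℝ} (hl : 0 ≤ l) (k : ℤ) : ctrwProb l (-k) = ctrwProb l k := by
  rw [ctrw_fourier hl, ctrw_fourier hl]
  simp [neg_mul, cos_neg]

lemma ctrwProb_le_zero {l : ℝ} (hl : 0 ≤ l) (k : ℤ) : ctrwProb l k ≤ ctrwProb l 0 := by
  rw [ctrw_fourier hl, ctrw_fourier hl]
  gcongr
  refine intervalIntegral.integral_mono_on pi_pos.le
    (by apply Continuous.intervalIntegrable; fun_prop)
    (by apply Continuous.intervalIntegrable; fun_prop) fun θ _ => ?_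
  have := cos_le_one (k * θ)
  simp only [Int.cast_zero, zero_mul, cos_zero]
  gcongr

lemma ctrwProb_zero_anti {l l' : ℝ} (hl : 0 ≤ l) (h : l ≤ l') : ctrwProb l' 0 ≤ ctrwProb l 0 := by
  rw [ctrw_fourier hl, ctrw_fourier (hl.trans h)]
  gcongr
  refine intervalIntegral.integral_mono_on pi_pos.le
    (by apply Continuous.intervalIntegrable; fun_prop)
    (by apply Continuous.intervalIntegrable; fun_prop) fun θ _ => ?_
  have := cos_le_one θ
  simp only [Int.cast_zero, zero_mul, cos_zero, one_mul]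
  gcongr

lemma integral_inv_one_add_sq_le {a : ℝ} (ha : 0 < a) :
    ∫ θ in (0 : ℝ)..π, 1 / (1 + (a * θ) ^ 2) ≤ π / (2 * a) := by
  rw [intervalIntegral.integral_comp_mul_left (fun x => 1 / (1 + x ^ 2)) ha.ne']
  simp only [mul_zero, integral_one_div_one_add_sq, arctan_zero, sub_zero, smul_eq_mul]
  have := (arctan_lt_pi_div_two (a * π)).le
  calc a⁻¹ * arctan (a * π) ≤ a⁻¹ * (π / 2) := by gcongr
    _ = π / (2 * a) := by field_simp

lemma sq_div_nine_le_one_sub_cos {θ : ℝ} (h0 : 0 ≤ θ) (h1 : θ ≤ π) : θ ^ 2 / 9 ≤ 1 - cos θ := by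
  have h := cos_le_one_sub_mul_cos_sq (x := θ) (by rw [abs_of_nonneg h0]; exact h1)
  have hp : π ^ 2 ≤ 18 := by nlinarith [pi_le_four, pi_pos]
  have : θ ^ 2 / 9 ≤ 2 / π ^ 2 * θ ^ 2 := by
    rw [div_mul_eq_mul_div, div_le_div_iff₀ (by norm_num) (by positivity)]
    nlinarith [sq_nonneg θ]
  linarith

lemma exp_neg_le_inv {u : ℝ} (hu : 0 ≤ u) : exp (-u) ≤ 1 / (1 + u) := by
  rw [exp_neg, ← one_div]
  have := add_one_le_exp u
  gcongr
  linarith

lemma mul_exp_neg_le {u : ℝ} (hu : 0 ≤ u) : u * exp (-u) ≤ 2 / (1 + u) := by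
  have h := quadratic_le_exp_of_nonneg hu
  rw [exp_neg, ← div_eq_mul_inv, div_le_div_iff₀ (exp_pos u) (by positivity)]
  nlinarith

/-- upper bound on the return probability -/
lemma ctrwProb_zero_le {l : ℝ} (hl : 0 < l) : ctrwProb l 0 ≤ 2 / √l := by
  have hs : 0 < √l := sqrt_pos.2 hl
  rw [ctrw_fourier hl.le]
  have h1 : ∫ θ in (0 : ℝ)..π, cos ((0 : ℤ) * θ) * exp (-(l * (1 - cos θ)))
      ≤ ∫ θ in (0 : ℝ)..π, 1 / (1 + (√l / 3 * θ) ^ 2) := by
    refine intervalIntegral.integral_mono_on pi_pos.le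
      (by apply Continuous.intervalIntegrable; fun_prop)
      (by
        apply Continuous.intervalIntegrable
        exact continuous_const.div (by fun_prop) fun θ => by positivity) fun θ hθ => ?_
    simp only [Int.cast_zero, zero_mul, cos_zero, one_mul]
    have h2 := sq_div_nine_le_one_sub_cos hθ.1 hθ.2
    have h3 : (√l / 3 * θ) ^ 2 = l * (θ ^ 2 / 9) := by
      rw [mul_pow, div_pow, sq_sqrt hl.le]; ring
    rw [h3]
    calc exp (-(l * (1 - cos θ))) ≤ exp (-(l * (θ ^ 2 / 9))) := by gcongr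
      _ ≤ _ := exp_neg_le_inv (by positivity)
  have h2 := integral_inv_one_add_sq_le (a := √l / 3) (by positivity)
  calc 1 / π * ∫ θ in (0 : ℝ)..π, cos ((0 : ℤ) * θ) * exp (-(l * (1 - cos θ)))
      ≤ 1 / π * (π / (2 * (√l / 3))) := by gcongr; exact h1.trans h2
    _ = (3 / 2) / √l := by field_simp
    _ ≤ 2 / √l := by gcongr; norm_num

/-- lower bound on the return probability -/
lemma le_ctrwProb_zero {l : ℝ} (hl : 1 ≤ l) : 1 / (8 * √l) ≤ ctrwProb l 0 := by
  have hl0 : 0 < l := by linarith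
  have hs : 1 ≤ √l := by rw [one_le_sqrt]; exact hl
  have hs0 : 0 < √l := by linarith
  rw [ctrw_fourier hl0.le]
  have hb : 1 / √l ≤ π := by
    have : 1 / √l ≤ 1 := by rw [div_le_one hs0]; exact hs
    linarith [pi_gt_three]
  have hc : Continuous fun θ : ℝ => cos ((0 : ℤ) * θ) * exp (-(l * (1 - cos θ))) := by fun_prop
  have h1 : ∫ θ in (0 : ℝ)..(1 / √l), cos ((0 : ℤ) * θ) * exp (-(l * (1 - cos θ)))
      ≤ ∫ θ in (0 : ℝ)..π, cos ((0 : ℤ) * θ) * exp (-(l * (1 - cos θ))) := by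
    refine intervalIntegral.integral_mono_interval le_rfl (by positivity) hb ?_
      (hc.intervalIntegrable _ _)
    refine Filter.Eventually.of_forall fun θ => ?_
    simp only [Int.cast_zero, zero_mul, cos_zero, one_mul]
    positivity
  have h2 : ∫ θ in (0 : ℝ)..(1 / √l), (1 / 2 : ℝ)
      ≤ ∫ θ in (0 : ℝ)..(1 / √l), cos ((0 : ℤ) * θ) * exp (-(l * (1 - cos θ))) := by
    refine intervalIntegral.integral_mono_on (by positivity) intervalIntegrable_const
      (hc.intervalIntegrable _ _) fun θ hθ => ?_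
    simp only [Int.cast_zero, zero_mul, cos_zero, one_mul]
    have h3 := one_sub_sq_div_two_le_cos (x := θ)
    have h4 : θ ^ 2 ≤ 1 / l := by
      calc θ ^ 2 ≤ (1 / √l) ^ 2 := by gcongr; exacts [hθ.1, hθ.2]
        _ = 1 / l := by rw [div_pow, sq_sqrt hl0.le, one_pow]
    have h5 : l * θ ^ 2 ≤ 1 := by
      calc l * θ ^ 2 ≤ l * (1 / l) := by gcongr
        _ = 1 := by field_simp
    have h6 : l * (1 - cos θ) ≤ 1 / 2 := by nlinarith
    have h7 := add_one_le_exp (-(l * (1 - cos θ)))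
    linarith
  simp only [intervalIntegral.integral_const, sub_zero, smul_eq_mul] at h2
  calc 1 / (8 * √l) = 1 / 4 * (1 / √l * (1 / 2)) := by field_simp; norm_num
    _ ≤ 1 / π * (1 / √l * (1 / 2)) := by gcongr; exact pi_le_four
    _ ≤ _ := by gcongr; exact h2.trans h1

/-- second order bound -/
lemma ctrwProb_zero_sub_le {l : ℝ} (hl : 0 < l) (k : ℤ) :
    ctrwProb l 0 - ctrwProb l k ≤ 27 / 2 * (k : ℝ) ^ 2 / (l * √l) := by
  have hs : 0 < √l := sqrt_pos.2 hl
  rw [ctrw_fourier hl.le, ctrw_fourier hl.le, ← mul_sub,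
    ← intervalIntegral.integral_sub (by apply Continuous.intervalIntegrable; fun_prop)
        (by apply Continuous.intervalIntegrable; fun_prop)]
  have h1 : ∫ θ in (0 : ℝ)..π, (cos ((0 : ℤ) * θ) * exp (-(l * (1 - cos θ))) -
      cos (k * θ) * exp (-(l * (1 - cos θ))))
      ≤ ∫ θ in (0 : ℝ)..π, 9 * (k : ℝ) ^ 2 / l * (1 / (1 + (√l / 3 * θ) ^ 2)) := by
    refine intervalIntegral.integral_mono_on pi_pos.le
      (by apply Continuous.intervalIntegrable; fun_prop)
      (by
        apply Continuous.intervalIntegrable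
        exact continuous_const.mul (continuous_const.div (by fun_prop) fun θ => by positivity))
      fun θ hθ => ?_
    simp only [Int.cast_zero, zero_mul, cos_zero, one_mul]
    have h2 := sq_div_nine_le_one_sub_cos hθ.1 hθ.2
    have h3 : (√l / 3 * θ) ^ 2 = l * (θ ^ 2 / 9) := by
      rw [mul_pow, div_pow, sq_sqrt hl.le]; ring
    rw [h3]
    have h4 := one_sub_sq_div_two_le_cos (x := k * θ)
    have h5 := mul_exp_neg_le (u := l * (θ ^ 2 / 9)) (by positivity)
    have h6 : exp (-(l * (1 - cos θ))) ≤ exp (-(l * (θ ^ 2 / 9))) := by gcongr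
    calc exp (-(l * (1 - cos θ))) - cos (k * θ) * exp (-(l * (1 - cos θ)))
        = (1 - cos (k * θ)) * exp (-(l * (1 - cos θ))) := by ring
      _ ≤ ((k * θ) ^ 2 / 2) * exp (-(l * (θ ^ 2 / 9))) := by gcongr; linarith
      _ = 9 * (k : ℝ) ^ 2 / l / 2 * (l * (θ ^ 2 / 9) * exp (-(l * (θ ^ 2 / 9)))) := by
          field_simp
      _ ≤ 9 * (k : ℝ) ^ 2 / l / 2 * (2 / (1 + l * (θ ^ 2 / 9))) := by gcongr
      _ = _ := by field_simp
  rw [intervalIntegral.integral_const_mul] at h1
  have h2 := integral_inv_one_add_sq_le (a := √l / 3) (by positivity)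
  calc 1 / π * ∫ θ in (0 : ℝ)..π, (cos ((0 : ℤ) * θ) * exp (-(l * (1 - cos θ))) -
      cos (k * θ) * exp (-(l * (1 - cos θ))))
      ≤ 1 / π * (9 * (k : ℝ) ^ 2 / l * (π / (2 * (√l / 3)))) := by
        gcongr
        exact h1.trans (by gcongr)
    _ = _ := by field_simp; ring

/-- lower bound in the bulk -/
lemma le_ctrwProb {l : ℝ} (hl : 1 ≤ l) {k : ℤ} (hk : 216 * (k : ℝ) ^ 2 ≤ l) :
    1 / (16 * √l) ≤ ctrwProb l k := by
  have hl0 : 0 < l := by linarith
  have hs : 0 < √l := sqrt_pos.2 hl0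
  have h1 := le_ctrwProb_zero hl
  have h2 := ctrwProb_zero_sub_le hl0 k
  have h3 : 27 / 2 * (k : ℝ) ^ 2 / (l * √l) ≤ 1 / (16 * √l) := by
    rw [div_le_div_iff₀ (by positivity) (by positivity)]
    nlinarith
  have h4 : 1 / (8 * √l) = 1 / (16 * √l) + 1 / (16 * √l) := by field_simp; norm_num
  linarith

/-- uniform tail bound -/
lemma ctrwProb_le_inv {l : ℝ} (hl : 0 ≤ l) {k : ℤ} (hk : k ≠ 0) :
    ctrwProb l k ≤ 1 / |(k : ℝ)| := by
  have hk' : (k : ℝ) ≠ 0 := by exact_mod_cast hk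
  have hka : 0 < |(k : ℝ)| := abs_pos.2 hk'
  rw [ctrw_fourier hl]
  have hu : ∀ θ ∈ Set.uIcc (0 : ℝ) π, HasDerivAt (fun θ => exp (-(l * (1 - cos θ))))
      (exp (-(l * (1 - cos θ))) * (-(l * sin θ))) θ := by
    intro θ _
    have := (((hasDerivAt_cos θ).const_sub 1).const_mul l).neg.exp
    simpa only [Pi.neg_apply, neg_neg] using this
  have hv : ∀ θ ∈ Set.uIcc (0 : ℝ) π, HasDerivAt (fun θ => sin (k * θ) / k) (cos (k * θ)) θ := by
    intro θ _
    have := (((hasDerivAt_id θ).const_mul (k : ℝ)).sin).div_const (k : ℝ)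
    have e : cos (k * id θ) * (k * 1) / k = cos (k * θ) := by
      simp only [id]
      field_simp
    rw [e] at this
    exact this
  have hparts := intervalIntegral.integral_mul_deriv_eq_deriv_mul hu hv
    (by apply Continuous.intervalIntegrable; fun_prop)
    (by apply Continuous.intervalIntegrable; fun_prop)
  have hftc := intervalIntegral.integral_eq_sub_of_hasDerivAt hu
    (by apply Continuous.intervalIntegrable; fun_prop)
  have h1 : ∫ θ in (0 : ℝ)..π, cos (k * θ) * exp (-(l * (1 - cos θ)))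
      = ∫ θ in (0 : ℝ)..π, exp (-(l * (1 - cos θ))) * (l * sin θ) * (sin (k * θ) / k) := by
    have : ∫ θ in (0 : ℝ)..π, cos (k * θ) * exp (-(l * (1 - cos θ)))
        = ∫ θ in (0 : ℝ)..π, exp (-(l * (1 - cos θ))) * cos (k * θ) := by
      congr 1; ext θ; ring
    rw [this, hparts]
    simp only [sin_int_mul_pi, zero_div, mul_zero, sin_zero, sub_zero, zero_sub]
    rw [← intervalIntegral.integral_neg]
    congr 1; ext θ; ring
  have h2 : ∫ θ in (0 : ℝ)..π, exp (-(l * (1 - cos θ))) * (l * sin θ) * (sin (k * θ) / k)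
      ≤ ∫ θ in (0 : ℝ)..π, -(1 / |(k : ℝ)|) * (exp (-(l * (1 - cos θ))) * (-(l * sin θ))) := by
    refine intervalIntegral.integral_mono_on pi_pos.le
      (by apply Continuous.intervalIntegrable; fun_prop)
      (by apply Continuous.intervalIntegrable; fun_prop) fun θ hθ => ?_
    have h3 : 0 ≤ sin θ := sin_nonneg_of_nonneg_of_le_pi hθ.1 hθ.2
    have h4 : sin (k * θ) / k ≤ 1 / |(k : ℝ)| := by
      refine (le_abs_self _).trans ?_
      rw [abs_div]
      gcongr
      exact abs_sin_le_one _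
    calc exp (-(l * (1 - cos θ))) * (l * sin θ) * (sin (k * θ) / k)
        ≤ exp (-(l * (1 - cos θ))) * (l * sin θ) * (1 / |(k : ℝ)|) := by gcongr
      _ = _ := by ring
  rw [intervalIntegral.integral_const_mul, hftc] at h2
  simp only [cos_pi, cos_zero, sub_self, mul_zero, neg_zero, exp_zero] at h2
  have h5 : 0 < exp (-(l * (1 - -1))) := exp_pos _
  have h6 : -(1 / |(k : ℝ)|) * (exp (-(l * (1 - -1))) - 1) ≤ 1 / |(k : ℝ)| := by
    have : 0 < 1 / |(k : ℝ)| := by positivity
    have := mul_pos this h5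
    linarith
  rw [h1]
  calc 1 / π * ∫ θ in (0 : ℝ)..π, exp (-(l * (1 - cos θ))) * (l * sin θ) * (sin (k * θ) / k)
      ≤ 1 / π * (1 / |(k : ℝ)|) := by gcongr; exact h2.trans h6
    _ ≤ 1 * (1 / |(k : ℝ)|) := by
        gcongr
        rw [div_le_one pi_pos]; linarith [pi_gt_three]
    _ = _ := one_mul _

lemma sum_mul_exp_le (lam a : ℝ) (n : ℕ) :
    a * ∑ i ∈ range n, lam * exp (-(((i : ℝ) + 1) * lam * a)) ≤ 1 - exp (-(n * lam * a)) := by
  induction n with
  | zero => simp
  | succ n ih =>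
    rw [sum_range_succ, mul_add]
    have h1 := add_one_le_exp (lam * a)
    have h2 : exp (-(n * lam * a)) = exp (lam * a) * exp (-(((n : ℝ) + 1) * lam * a)) := by
      rw [← exp_add]; congr 1; ring
    have h3 : 0 < exp (-(((n : ℝ) + 1) * lam * a)) := exp_pos _
    push_cast
    nlinarith

/-- potential kernel type bound, uniform over moving targets -/
lemma sum_ctrwProb_sub_le {lam D : ℝ} (hlam : 0 ≤ lam) (hD : 0 < D) (n : ℕ) (w : ℕ → ℤ)
    (hw : ∀ i < n, |(w i : ℝ)| ≤ D) :
    ∑ i ∈ range n, lam * (ctrwProb ((i + 1) * lam) 0 - ctrwProb ((i + 1) * lam) (w i))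
      ≤ 9 * D := by
  have h1 : ∀ i ∈ range n, lam * (ctrwProb ((i + 1) * lam) 0 - ctrwProb ((i + 1) * lam) (w i))
      = 1 / π * ∫ θ in (0 : ℝ)..π,
        (1 - cos (w i * θ)) * (lam * exp (-(((i : ℝ) + 1) * lam * (1 - cos θ)))) := by
    intro i _
    have hl : 0 ≤ ((i : ℝ) + 1) * lam := by positivity
    rw [ctrw_fourier hl, ctrw_fourier hl, ← mul_sub,
      ← intervalIntegral.integral_sub (by apply Continuous.intervalIntegrable; fun_prop)
        (by apply Continuous.intervalIntegrable; fun_prop), mul_left_comm,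
      ← intervalIntegral.integral_const_mul]
    congr 2
    ext θ
    simp only [Int.cast_zero, zero_mul, cos_zero, one_mul]
    ring
  rw [sum_congr rfl h1, ← mul_sum, ← intervalIntegral.integral_finsetSum
    (fun i _ => by apply Continuous.intervalIntegrable; fun_prop)]
  have h2 : ∫ θ in (0 : ℝ)..π, ∑ i ∈ range n,
        (1 - cos (w i * θ)) * (lam * exp (-(((i : ℝ) + 1) * lam * (1 - cos θ))))
      ≤ ∫ θ in (0 : ℝ)..π, 9 * D ^ 2 * (1 / (1 + (D / 2 * θ) ^ 2)) := by
    refine intervalIntegral.integral_mono_on pi_pos.le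
      (by apply Continuous.intervalIntegrable; fun_prop)
      (by
        apply Continuous.intervalIntegrable
        exact continuous_const.mul (continuous_const.div (by fun_prop) fun θ => by positivity))
      fun θ hθ => ?_
    have h3 := sq_div_nine_le_one_sub_cos hθ.1 hθ.2
    have hpos : 0 < 1 + (D / 2 * θ) ^ 2 := by positivity
    have h4 : ∀ i ∈ range n, 1 - cos (w i * θ)
        ≤ 9 * D ^ 2 * (1 / (1 + (D / 2 * θ) ^ 2)) * (1 - cos θ) := by
      intro i hi
      have hwi := hw i (mem_range.1 hi)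
      have h5 : 1 - cos (w i * θ) ≤ 2 := by linarith [neg_one_le_cos (w i * θ)]
      have h6 : 1 - cos (w i * θ) ≤ (D * θ) ^ 2 / 2 := by
        have h7 := one_sub_sq_div_two_le_cos (x := w i * θ)
        have h8 : (w i * θ) ^ 2 ≤ (D * θ) ^ 2 := by
          rw [mul_pow, mul_pow, ← sq_abs (w i : ℝ)]
          gcongr
        linarith
      have h9 : 1 - cos (w i * θ) ≤ (D * θ) ^ 2 * (1 / (1 + (D / 2 * θ) ^ 2)) := by
        rw [mul_one_div, le_div_iff₀ hpos]
        have h10 : (D / 2 * θ) ^ 2 = (D * θ) ^ 2 / 4 := by ring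
        rw [h10]
        have h11 : 0 ≤ (D * θ) ^ 2 := sq_nonneg _
        nlinarith
      calc 1 - cos (w i * θ) ≤ (D * θ) ^ 2 * (1 / (1 + (D / 2 * θ) ^ 2)) := h9
        _ = 9 * D ^ 2 * (1 / (1 + (D / 2 * θ) ^ 2)) * (θ ^ 2 / 9) := by ring
        _ ≤ _ := by gcongr
    have h12 := sum_mul_exp_le lam (1 - cos θ) n
    have h13 : 0 < exp (-(n * lam * (1 - cos θ))) := exp_pos _
    calc ∑ i ∈ range n, (1 - cos (w i * θ)) * (lam * exp (-(((i : ℝ) + 1) * lam * (1 - cos θ))))
        ≤ ∑ i ∈ range n, 9 * D ^ 2 * (1 / (1 + (D / 2 * θ) ^ 2)) * (1 - cos θ) *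
          (lam * exp (-(((i : ℝ) + 1) * lam * (1 - cos θ)))) := by
          refine sum_le_sum fun i hi => ?_
          gcongr
          exact h4 i hi
      _ = 9 * D ^ 2 * (1 / (1 + (D / 2 * θ) ^ 2)) * ((1 - cos θ) *
          ∑ i ∈ range n, lam * exp (-(((i : ℝ) + 1) * lam * (1 - cos θ)))) := by
          rw [← mul_sum]; ring
      _ ≤ 9 * D ^ 2 * (1 / (1 + (D / 2 * θ) ^ 2)) * 1 := by gcongr; linarith
      _ = _ := mul_one _
  rw [intervalIntegral.integral_const_mul] at h2
  have h3 := integral_inv_one_add_sq_le (a := D / 2) (by positivity)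
  calc 1 / π * ∫ θ in (0 : ℝ)..π, ∑ i ∈ range n,
        (1 - cos (w i * θ)) * (lam * exp (-(((i : ℝ) + 1) * lam * (1 - cos θ))))
      ≤ 1 / π * (9 * D ^ 2 * (π / (2 * (D / 2)))) := by
        gcongr
        exact h2.trans (by gcongr)
    _ = 9 * D := by field_simp

end Pool.Agent.Lib.MP_e5e566_pr
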