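import Pool.Agent.Lib.MP_e5e566_pr.Paths

/-!
The quantitative estimate in continuous time.
-/

open MeasureTheory ProbabilityTheory Finset Filter Topology
open scoped ENNReal NNReal

set_option maxHeartbeats 400000

namespace Pool.Agent.Lib.MP_e5e566_pr

lemma kill_le_one {s : ℝ≥0∞} (hs : s ≤ 1) : ∀ xs ys : List ℤ, kill s xs ys ≤ 1
  | [], _ => by simp [kill]
  | _ :: _, [] => by simp [kill]
  | x :: xs, y :: ys => by
    rw [kill]
    refine mul_le_one' ?_ (kill_le_one hs xs ys)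
    split_ifs
    · exact hs
    · exact le_rfl

lemma discW_le_one {s : ℝ≥0∞} (hs : s ≤ 1) (δ : ℝ≥0) (n : ℕ) (F : Finset ℤ) (xs : List ℤ)
    (v : (ℤ → ℕ) × (ℤ × ℕ → ℝ≥0 → ℤ)) : discW s δ n F xs v ≤ 1 :=
  prod_le_one' fun _ _ => prod_le_one' fun _ _ => kill_le_one hs _ _

lemma theta_bound {ρ : ℝ} (hρ : 0 ≤ ρ) {γ : ℝ≥0∞} (hγ : γ ≠ 0) {δ : ℝ≥0} (hδ : 0 < δ)
    (hδ1 : δ ≤ 1) :
    ENNReal.ofReal (ρ * δ) ≤ ENNReal.ofReal (ρ * (1 + γ⁻¹.toReal)) * (1 - ex (γ * δ)) := by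
  have hδ1' : (δ : ℝ) ≤ 1 := hδ1
  have hδ' : (0 : ℝ) < δ := hδ
  by_cases h : γ = ∞
  · subst h
    rw [ENNReal.top_mul (by exact_mod_cast hδ.ne'), ex_top]
    simp only [ENNReal.inv_top, ENNReal.toReal_zero, add_zero, mul_one, tsub_zero]
    exact ENNReal.ofReal_le_ofReal (by nlinarith)
  · have hg : 0 < γ.toReal := ENNReal.toReal_pos hγ h
    set g := γ.toReal with hg'
    have e : γ * δ = ENNReal.ofReal (g * δ) := by
      rw [ENNReal.ofReal_mul hg.le, hg', ENNReal.ofReal_toReal h, ENNReal.ofReal_coe_nnreal]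
    rw [e, ex_ofReal (by positivity), ENNReal.toReal_inv, ← hg', ← ENNReal.ofReal_one,
      ← ENNReal.ofReal_sub _ (Real.exp_pos _).le, ← ENNReal.ofReal_mul (by positivity)]
    refine ENNReal.ofReal_le_ofReal ?_
    have h1 := exp_neg_le_inv (u := g * δ) (by positivity)
    have h2 : g * δ / (1 + g) ≤ 1 - Real.exp (-(g * δ)) := by
      have h3 : g * δ / (1 + g) ≤ g * δ / (1 + g * δ) := by
        gcongr
        nlinarith
      have h4 : g * δ / (1 + g * δ) = 1 - 1 / (1 + g * δ) := by field_simp; ring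
      linarith
    calc ρ * δ = ρ * (1 + g⁻¹) * (g * δ / (1 + g)) := by field_simp; ring
      _ ≤ _ := by gcongr

section Model

variable {Ω : Type*} [MeasurableSpace Ω] {P : Measure Ω} {κ ρ : ℝ} {ν : ℝ≥0}
  {X : ℝ≥0 → Ω → ℤ} {N : ℤ → Ω → ℕ} {Y : ℤ × ℕ → ℝ≥0 → Ω → ℤ}

lemma IsTrapModel.measurable_discW' (h : IsTrapModel P κ ρ ν X N Y) (s : ℝ≥0∞) (δ : ℝ≥0) (n : ℕ)
    (F : Finset ℤ) : Measurable (fun ω =>
      discW s δ n F (skel δ n 0 (fun s => X s ω)) ((fun y => N y ω), (fun i s => Y i s ω))) := by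
  simpa using h.measurable_disc s δ n F (fun _ => 1)

lemma IsTrapModel.measurable_truncW (h : IsTrapModel P κ ρ ν X N Y) (γ : ℝ≥0∞) {t : ℝ≥0}
    (ht : 0 < t) (F : Finset ℤ) : Measurable (truncW γ X N Y t F) :=
  ENNReal.measurable_of_tendsto
    (fun n : ℕ => h.measurable_discW' (ex (γ * (t / n : ℝ≥0))) (t / n) n F)
    (tendsto_pi_nhds.2 fun ω => tendsto_discW (h.walk.rightCont ω)
      (fun i => (h.trapWalk i).rightCont ω) γ ht F)

lemma IsTrapModel.measurable_survivalWeight (h : IsTrapModel P κ ρ ν X N Y) (γ : ℝ≥0∞) {t : ℝ≥0}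
    (ht : 0 < t) : Measurable (survivalWeight γ X N Y t) :=
  ENNReal.measurable_of_tendsto' atTop (fun F => h.measurable_truncW γ ht F)
    (tendsto_pi_nhds.2 fun ω => tendsto_truncW (h.walk.rightCont ω)
      (fun i => (h.trapWalk i).rightCont ω) γ t)

lemma IsTrapModel.tendsto_disc (h : IsTrapModel P κ ρ ν X N Y) (γ : ℝ≥0∞) {t : ℝ≥0}
    (ht : 0 < t) (F : Finset ℤ) (A : Set Ω) :
    Tendsto (fun n : ℕ => ∫⁻ ω in A, discW (ex (γ * (t / n : ℝ≥0))) (t / n) n F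
      (skel (t / n) n 0 (fun s => X s ω)) ((fun y => N y ω), (fun i s => Y i s ω)) ∂P) atTop
      (𝓝 (∫⁻ ω in A, truncW γ X N Y t F ω ∂P)) := by
  have := h.isProb
  exact tendsto_lintegral_of_dominated_convergence (fun _ => 1)
    (fun n => h.measurable_discW' (ex (γ * (t / n : ℝ≥0))) (t / n) n F)
    (fun n => Eventually.of_forall fun ω => discW_le_one (ex_le_one _) _ _ _ _ _) (by simp)
    (Eventually.of_forall fun ω => tendsto_discW (h.walk.rightCont ω)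
      (fun i => (h.trapWalk i).rightCont ω) γ ht F)

lemma IsTrapModel.tendsto_trunc (h : IsTrapModel P κ ρ ν X N Y) (γ : ℝ≥0∞) {t : ℝ≥0}
    (ht : 0 < t) (A : Set Ω) :
    Tendsto (fun F : Finset ℤ => ∫⁻ ω in A, truncW γ X N Y t F ω ∂P) atTop
      (𝓝 (∫⁻ ω in A, survivalWeight γ X N Y t ω ∂P)) := by
  have := h.isProb
  exact tendsto_lintegral_filter_of_dominated_convergence (fun _ => 1)
    (Eventually.of_forall fun F => h.measurable_truncW γ ht F)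
    (Eventually.of_forall fun F => Eventually.of_forall fun ω => truncW_le_one γ t F ω) (by simp)
    (Eventually.of_forall fun ω => tendsto_truncW (h.walk.rightCont ω)
      (fun i => (h.trapWalk i).rightCont ω) γ t)

lemma IsTrapModel.disc_bound (h : IsTrapModel P κ ρ ν X N Y) (hκ : 0 < κ) (hρ : 0 < ρ)
    {γ : ℝ≥0∞} (hγ : γ ≠ 0) {σ : ℝ} (hσ1 : 2050 ≤ σ) (hσ2 : ρ * (1 + γ⁻¹.toReal) ≤ σ)
    (hσ3 : 8192 * ρ / κ ≤ σ ^ 2) {t : ℝ≥0} (ht : 4 ≤ ρ * t) {H J : ℕ} (hH : 1 ≤ H)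
    (hJ : (J : ℝ) ≤ κ * t / (32768 * (H : ℝ) ^ 2)) (F : Finset ℤ) {n : ℕ} (hn1 : κ * t ≤ n)
    (hn2 : (t : ℝ) ≤ n) (hn3 : 6 ≤ n) :
    J * ∫⁻ ω, ind (Bd H (skel (t / n) n 0 (fun s => X s ω))) *
      discW (ex (γ * (t / n : ℝ≥0))) (t / n) n F
      (skel (t / n) n 0 (fun s => X s ω)) ((fun y => N y ω), (fun i s => Y i s ω)) ∂P
    ≤ 131072 * ENNReal.ofReal (Real.exp (ν * (3000000 * (σ * H) ^ 3 / (ρ * t / 4)))) *
      ∫⁻ ω, discW (ex (γ * (t / n : ℝ≥0))) (t / n) n F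
      (skel (t / n) n 0 (fun s => X s ω)) ((fun y => N y ω), (fun i s => Y i s ω)) ∂P := by
  have ht0 : (0 : ℝ) < t := by
    by_contra h0
    have : (t : ℝ) = 0 := le_antisymm (not_lt.1 h0) t.2
    rw [this] at ht; linarith
  have hn0 : (0 : ℝ) < n := by linarith
  have hH' : (1 : ℝ) ≤ H := by exact_mod_cast hH
  set δ : ℝ≥0 := t / n with hδ
  have hδr : (δ : ℝ) = t / n := by rw [hδ]; push_cast; rfl
  have hδ0 : (0 : ℝ) < δ := by rw [hδr]; positivity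
  have hδ1 : (δ : ℝ) ≤ 1 := by rw [hδr, div_le_one hn0]; exact hn2
  have hκδ : κ * δ ≤ 1 := by rw [hδr, mul_div_assoc', div_le_one hn0]; exact hn1
  have h1 := h.reduce hρ.le (ex_le_one (γ * δ)) δ n F (fun xs => ind (Bd H xs))
  have h2 := h.reduce hρ.le (ex_le_one (γ * δ)) δ n F (fun _ => 1)
  simp only [one_mul] at h2
  rw [h1, h2]
  set m : ℕ := ⌈2000 * (H : ℝ) ^ 2 / (κ * δ)⌉₊ with hm
  have hm1 : 2000 * (H : ℝ) ^ 2 ≤ m * (κ * δ) := by
    rw [← div_le_iff₀ (by positivity)]; exact Nat.le_ceil _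
  have hm2 : m * (κ * δ) ≤ 4096 * (H : ℝ) ^ 2 := by
    have h3 : (m : ℝ) ≤ 2000 * (H : ℝ) ^ 2 / (κ * δ) + 1 := (Nat.ceil_lt_add_one (by positivity)).le
    calc m * (κ * δ) ≤ (2000 * (H : ℝ) ^ 2 / (κ * δ) + 1) * (κ * δ) := by gcongr
      _ = 2000 * (H : ℝ) ^ 2 + κ * δ := by field_simp
      _ ≤ _ := by nlinarith
  refine discrete_main (Γ := ρ * (1 + γ⁻¹.toReal)) (θ := 1 - ex (γ * δ)) (m := m)
    (L₀ := (n + 3) / 4) ν.2 (by positivity) (by positivity) (by positivity) (by nlinarith)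
    (by linarith) (add_tsub_cancel_of_le (ex_le_one _)) (theta_bound hρ.le hγ hδ0 hδ1) hH hm1 hm2
    (by gcongr) ?_ ?_ ?_ F
  · calc ((m + m : ℕ) : ℝ) * (ρ * δ) = 2 * ρ / κ * (m * (κ * δ)) := by push_cast; field_simp; ring
      _ ≤ 2 * ρ / κ * (4096 * (H : ℝ) ^ 2) := by gcongr
      _ = 8192 * ρ / κ * (H : ℝ) ^ 2 := by ring
      _ ≤ σ ^ 2 * (H : ℝ) ^ 2 := by gcongr
      _ = _ := by ring
  · have h3 : (n : ℝ) ≤ 4 * (((n + 3) / 4 : ℕ) : ℝ) := by exact_mod_cast (by omega)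
    calc ρ * t / 4 = n / 4 * (ρ * δ) := by rw [hδr]; field_simp
      _ ≤ _ := by gcongr; linarith
  · have h3 : (4 : ℝ) * (J * (m + m)) ≤ n := by
      have h4 : (m : ℝ) ≤ 4096 * (H : ℝ) ^ 2 / (κ * δ) := by
        rw [le_div_iff₀ (by positivity)]; exact hm2
      calc (4 : ℝ) * (J * (m + m)) ≤ 4 * (κ * t / (32768 * (H : ℝ) ^ 2) *
            (4096 * (H : ℝ) ^ 2 / (κ * δ) + 4096 * (H : ℝ) ^ 2 / (κ * δ))) := by gcongr
        _ = n := by rw [hδr]; field_simp; norm_num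
    have h5 : 4 * (J * (m + m)) ≤ n := by exact_mod_cast h3
    omega

theorem IsTrapModel.annealed_bound (h : IsTrapModel P κ ρ ν X N Y) (hκ : 0 < κ) (hρ : 0 < ρ)
    {γ : ℝ≥0∞} (hγ : γ ≠ 0) {σ : ℝ} (hσ1 : 2050 ≤ σ) (hσ2 : ρ * (1 + γ⁻¹.toReal) ≤ σ)
    (hσ3 : 8192 * ρ / κ ≤ σ ^ 2) {t : ℝ≥0} (ht : 4 ≤ ρ * t) {H J : ℕ} (hH : 1 ≤ H)
    (hJ : (J : ℝ) ≤ κ * t / (32768 * (H : ℝ) ^ 2)) :
    ∃ A : Set Ω, MeasurableSet A ∧ {ω | ∀ s ≤ t, |(X s ω : ℝ)| ≤ H} ⊆ A ∧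
    J * annealed P γ X N Y t A
      ≤ 131072 * ENNReal.ofReal (Real.exp (ν * (3000000 * (σ * H) ^ 3 / (ρ * t / 4)))) := by
  have ht0 : 0 < t := by
    rcases eq_or_lt_of_le (zero_le : 0 ≤ t) with rfl | h0
    · simp at ht; linarith
    · exact h0
  set C := 131072 * ENNReal.ofReal (Real.exp (ν * (3000000 * (σ * H) ^ 3 / (ρ * t / 4)))) with hC
  have hCtop : C ≠ ∞ := ENNReal.mul_ne_top (by simp) ENNReal.ofReal_ne_top
  set A : Set Ω := ⋂ n : ℕ, ⋂ i ∈ range n,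
    {ω | |(X (((i + 1 : ℕ) : ℝ≥0) * (t / n)) ω : ℝ)| ≤ H} with hA
  have hAm : MeasurableSet A := by
    refine MeasurableSet.iInter fun n => Finset.measurableSet_biInter _ fun i _ => ?_
    exact (h.walk.measurable _) (MeasurableSet.of_discrete (s := {k : ℤ | |(k : ℝ)| ≤ H}))
  have hAB : ∀ ω ∈ A, ∀ n : ℕ, Bd H (skel (t / n) n 0 (fun s => X s ω)) := by
    intro ω hω n x hx
    simp only [skel, List.mem_map, List.mem_range, zero_add] at hx
    obtain ⟨i, hi, rfl⟩ := hx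
    simp only [hA, Set.mem_iInter, Set.mem_ofPred_eq] at hω
    exact hω n i (mem_range.2 hi)
  refine ⟨A, hAm, fun ω hω => ?_, ?_⟩
  · simp only [hA, Set.mem_iInter, Set.mem_ofPred_eq]
    intro n i hi
    refine hω _ ?_
    have hi' : i + 1 ≤ n := mem_range.1 hi
    have hn' : (0 : ℝ≥0) < n := by exact_mod_cast (by omega : 0 < n)
    rw [mul_div_assoc', div_le_iff₀ hn', mul_comm]
    gcongr
  have h1 : ∀ F : Finset ℤ, J * ∫⁻ ω in A, truncW γ X N Y t F ω ∂P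
      ≤ C * ∫⁻ ω in Set.univ, truncW γ X N Y t F ω ∂P := by
    intro F
    refine le_of_tendsto_of_tendsto
      (ENNReal.Tendsto.const_mul (h.tendsto_disc γ ht0 F A) (Or.inr (ENNReal.natCast_ne_top J)))
      (ENNReal.Tendsto.const_mul (h.tendsto_disc γ ht0 F Set.univ) (Or.inr hCtop)) ?_
    filter_upwards [tendsto_natCast_atTop_atTop.eventually_ge_atTop (κ * t),
      tendsto_natCast_atTop_atTop.eventually_ge_atTop (t : ℝ), eventually_ge_atTop 6]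
      with n hn1 hn2 hn3
    rw [Measure.restrict_univ]
    refine le_trans ?_ (h.disc_bound hκ hρ hγ hσ1 hσ2 hσ3 ht hH hJ F hn1 hn2 hn3)
    refine mul_le_mul_right ?_ _
    rw [← lintegral_indicator hAm]
    refine lintegral_mono fun ω => ?_
    by_cases hω : ω ∈ A
    · simp only [Set.indicator_of_mem hω]
      rw [ind_pos (hAB ω hω n), one_mul]
    · simp only [Set.indicator_of_notMem hω]
      exact zero_le
  have h2 : J * ∫⁻ ω in A, survivalWeight γ X N Y t ω ∂P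
      ≤ C * ∫⁻ ω in Set.univ, survivalWeight γ X N Y t ω ∂P :=
    le_of_tendsto_of_tendsto'
      (ENNReal.Tendsto.const_mul (h.tendsto_trunc γ ht0 A) (Or.inr (ENNReal.natCast_ne_top J)))
      (ENNReal.Tendsto.const_mul (h.tendsto_trunc γ ht0 Set.univ) (Or.inr hCtop)) h1
  rw [Measure.restrict_univ] at h2
  rw [annealed, Measure.smul_apply, withDensity_apply _ hAm, smul_eq_mul]
  set Z := ∫⁻ ω, survivalWeight γ X N Y t ω ∂P
  calc J * (Z⁻¹ * ∫⁻ ω in A, survivalWeight γ X N Y t ω ∂P)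
      = Z⁻¹ * (J * ∫⁻ ω in A, survivalWeight γ X N Y t ω ∂P) := by ring
    _ ≤ Z⁻¹ * (C * Z) := by gcongr
    _ = C * (Z⁻¹ * Z) := by ring
    _ ≤ C * 1 := by gcongr; rw [mul_comm]; exact ENNReal.mul_inv_le_one Z
    _ = C := mul_one C

end Model

end Pool.Agent.Lib.MP_e5e566_pr
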