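import Pool.Agent.Lib.MP_e5e566_pr.Limit

/-!
The maximal displacement is at least of order `(t log t)^{1/3}` under the annealed measure.
-/

open MeasureTheory ProbabilityTheory Finset Filter Topology
open scoped ENNReal NNReal

set_option maxHeartbeats 400000

namespace Pool.Agent.Lib.MP_e5e566_pr

theorem exists_const {κ ρ : ℝ} (ν : ℝ≥0) (hκ : 0 < κ) (hρ : 0 < ρ) {γ : ℝ≥0∞} (hγ : γ ≠ 0) :
    ∃ c : ℝ, 0 < c ∧ ∀ {Ω : Type*} [MeasurableSpace Ω] {P : Measure Ω}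
      {X : ℝ≥0 → Ω → ℤ} {N : ℤ → Ω → ℕ} {Y : ℤ × ℕ → ℝ≥0 → Ω → ℤ},
      IsTrapModel P κ ρ ν X N Y →
      Tendsto (fun t : ℝ≥0 => annealed P γ X N Y t
        {ω | ∀ s ≤ t, |(X s ω : ℝ)| ≤ c * ((t : ℝ) * Real.log t) ^ (1 / 3 : ℝ)}) atTop (𝓝 0) := by
  set σ : ℝ := 2050 + ρ * (1 + γ⁻¹.toReal) + √(8192 * ρ / κ) with hσ
  have hΓ : 0 ≤ ρ * (1 + γ⁻¹.toReal) := by positivity
  have hsq := Real.sqrt_nonneg (8192 * ρ / κ)
  have hσ1 : 2050 ≤ σ := by linarith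
  have hσ2 : ρ * (1 + γ⁻¹.toReal) ≤ σ := by linarith
  have hσ3 : 8192 * ρ / κ ≤ σ ^ 2 := by
    rw [← Real.sq_sqrt (by positivity : 0 ≤ 8192 * ρ / κ)]
    gcongr
    linarith
  set K : ℝ := ν * (12000000 * σ ^ 3 / ρ) with hK
  have hK0 : 0 ≤ K := by positivity
  set c : ℝ := (1 / (6 * (K + 1))) ^ (1 / 3 : ℝ) with hc
  have hc0 : 0 < c := by positivity
  have hc3 : c ^ 3 = 1 / (6 * (K + 1)) := by
    rw [hc, ← Real.rpow_natCast, ← Real.rpow_mul (by positivity)]; norm_num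
  refine ⟨c, hc0, fun {Ω} _ {P X N Y} h => ?_⟩
  have hu : Tendsto (fun t : ℝ≥0 => (t : ℝ) ^ (1 / 12 : ℝ)) atTop atTop :=
    (tendsto_rpow_atTop (by norm_num)).comp (NNReal.tendsto_coe_atTop.2 tendsto_id)
  have hlim : Tendsto (fun t : ℝ≥0 => ENNReal.ofReal
      (131072 * (393216 / κ) / (t : ℝ) ^ (1 / 12 : ℝ))) atTop (𝓝 0) := by
    rw [← ENNReal.ofReal_zero]
    exact ENNReal.tendsto_ofReal (tendsto_const_nhds.div_atTop hu)
  refine tendsto_of_tendsto_of_tendsto_of_le_of_le' tendsto_const_nhds hlim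
    (Eventually.of_forall fun _ => zero_le) ?_
  have hco : Tendsto (fun t : ℝ≥0 => (t : ℝ)) atTop atTop := NNReal.tendsto_coe_atTop.2 tendsto_id
  filter_upwards [hco.eventually_ge_atTop (4 / ρ), hco.eventually_ge_atTop (6 * (K + 1)),
    hu.eventually_ge_atTop 1, hu.eventually_ge_atTop (196608 / κ)] with t ht1 ht2 hu1 hu2
  set u : ℝ := (t : ℝ) ^ (1 / 12 : ℝ) with hu'
  have ht3 : (3 : ℝ) ≤ t := by linarith
  have ht0 : (0 : ℝ) < t := by linarith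
  have hu0 : 0 < u := by linarith
  have htu : (t : ℝ) = u ^ 12 := by
    rw [hu', ← Real.rpow_natCast, ← Real.rpow_mul ht0.le]; norm_num
  have hlog1 : 1 ≤ Real.log t := by
    rw [Real.le_log_iff_exp_le ht0]
    linarith [Real.exp_one_lt_d9]
  have hlog2 : Real.log t = 12 * Real.log u := by rw [htu, Real.log_pow]; norm_num
  have hlog3 : Real.log u ≤ u := by linarith [Real.log_le_sub_one_of_pos hu0]
  set R : ℝ := c * ((t : ℝ) * Real.log t) ^ (1 / 3 : ℝ) with hR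
  have hR0 : 0 ≤ R := by positivity
  have hR3 : R ^ 3 = (t : ℝ) * Real.log t / (6 * (K + 1)) := by
    rw [hR, mul_pow, hc3, ← Real.rpow_natCast, ← Real.rpow_mul (by positivity)]
    norm_num
    field_simp
  have hR1 : 1 ≤ R := by
    refine le_of_pow_le_pow_left₀ (n := 3) (by norm_num) hR0 ?_
    rw [hR3, one_pow, le_div_iff₀ (by positivity)]
    nlinarith
  set H : ℕ := ⌊R⌋₊ with hH
  have hH1 : 1 ≤ H := Nat.le_floor (by exact_mod_cast hR1)
  have hH1' : (1 : ℝ) ≤ H := by exact_mod_cast hH1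
  have hHR : (H : ℝ) ≤ R := Nat.floor_le hR0
  have hH3 : (H : ℝ) ^ 3 ≤ (t : ℝ) * Real.log t / (6 * (K + 1)) := by
    rw [← hR3]; gcongr
  have hH3' : (H : ℝ) ^ 3 ≤ 12 * u ^ 13 := by
    refine hH3.trans ?_
    rw [div_le_iff₀ (by positivity), hlog2, htu]
    have h1 : 0 < u ^ 12 := by positivity
    have h2 : u ^ 12 * (12 * Real.log u) ≤ u ^ 12 * (12 * u) := by gcongr
    have h3 : u ^ 12 * (12 * u) = 12 * u ^ 13 := by ring
    have h4 : 0 < u ^ 13 := by positivity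
    nlinarith
  have hH2 : (H : ℝ) ^ 2 ≤ 6 * u ^ 9 := by
    refine le_of_pow_le_pow_left₀ (n := 3) (by norm_num) (by positivity) ?_
    calc ((H : ℝ) ^ 2) ^ 3 = ((H : ℝ) ^ 3) ^ 2 := by ring
      _ ≤ (12 * u ^ 13) ^ 2 := by gcongr
      _ = 144 * u ^ 26 * 1 := by ring
      _ ≤ 216 * u ^ 26 * u := by gcongr; norm_num
      _ = _ := by ring
  set x : ℝ := κ * t / (32768 * (H : ℝ) ^ 2) with hx
  have hx1 : κ * u ^ 3 / 196608 ≤ x := by
    rw [hx, htu]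
    calc κ * u ^ 3 / 196608 = κ * u ^ 12 / (32768 * (6 * u ^ 9)) := by field_simp; norm_num
      _ ≤ _ := by gcongr
  have hx2 : 1 ≤ x := by
    refine le_trans ?_ hx1
    rw [div_le_iff₀ hκ] at hu2
    rw [le_div_iff₀ (by norm_num)]
    have : u ≤ u ^ 3 := le_self_pow₀ hu1 (by norm_num)
    nlinarith
  set J : ℕ := ⌊x⌋₊ with hJ
  have hJ1 : (J : ℝ) ≤ x := Nat.floor_le (by linarith)
  have hJ2 : x / 2 ≤ J := by
    have h1 : x < J + 1 := Nat.lt_floor_add_one x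
    have h2 : (1 : ℝ) ≤ J := by exact_mod_cast (Nat.le_floor (by exact_mod_cast hx2) : 1 ≤ J)
    linarith
  obtain ⟨A, -, hA, hb⟩ := h.annealed_bound hκ hρ hγ hσ1 hσ2 hσ3 (t := t)
    (by rw [div_le_iff₀ hρ] at ht1; linarith) hH1 hJ1
  have hsub : {ω | ∀ s ≤ t, |(X s ω : ℝ)| ≤ R} ⊆ A := by
    refine fun ω hω => hA fun s hs => ?_
    have h1 := hω s hs
    have h2 : (X s ω).natAbs ≤ H := Nat.le_floor (by rwa [Nat.cast_natAbs, Int.cast_abs])
    have h3 : (((X s ω).natAbs : ℕ) : ℝ) ≤ H := by exact_mod_cast h2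
    rwa [Nat.cast_natAbs, Int.cast_abs] at h3
  refine (measure_mono hsub).trans ?_
  have hexp : Real.exp (ν * (3000000 * (σ * H) ^ 3 / (ρ * t / 4))) ≤ u ^ 2 := by
    have h1 : ν * (3000000 * (σ * H) ^ 3 / (ρ * t / 4)) = K * (H : ℝ) ^ 3 / t := by
      rw [hK]; field_simp; ring
    have h2 : K * (H : ℝ) ^ 3 / t ≤ 2 * Real.log u := by
      rw [div_le_iff₀ ht0]
      calc K * (H : ℝ) ^ 3 ≤ (K + 1) * ((t : ℝ) * Real.log t / (6 * (K + 1))) := by
            gcongr; linarith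
        _ = 2 * Real.log u * t := by rw [hlog2]; field_simp; ring
    rw [h1]
    calc Real.exp (K * (H : ℝ) ^ 3 / t) ≤ Real.exp (2 * Real.log u) := by gcongr
      _ = u ^ 2 := by
        rw [show (2 : ℝ) * Real.log u = Real.log (u ^ 2) by rw [Real.log_pow]; norm_num,
          Real.exp_log (by positivity)]
  have hJ0 : (0 : ℝ) < J := by linarith
  have hJne : (J : ℝ≥0∞) ≠ 0 := by exact_mod_cast (by exact_mod_cast hJ0.ne' : J ≠ 0)
  rw [← ENNReal.mul_le_mul_iff_right hJne (ENNReal.natCast_ne_top J)]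
  refine hb.trans ?_
  rw [← ENNReal.ofReal_ofNat, ← ENNReal.ofReal_mul (by norm_num), ← ENNReal.ofReal_natCast,
    ← ENNReal.ofReal_mul hJ0.le]
  refine ENNReal.ofReal_le_ofReal ?_
  calc (131072 : ℝ) * Real.exp (ν * (3000000 * (σ * H) ^ 3 / (ρ * t / 4)))
      ≤ 131072 * u ^ 2 := by gcongr
    _ = (κ * u ^ 3 / 196608 / 2) * (131072 * (393216 / κ) / u) := by field_simp; norm_num
    _ ≤ _ := by gcongr; linarith

end Pool.Agent.Lib.MP_e5e566_pr
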