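import Pool.Agent.Lib.MP_e5e566_pr.Kernel

/-!
The transition operators of the walk, acting on functions with values in the extended nonnegative
reals.
-/

open Finset
open scoped ENNReal NNReal

namespace Pool.Agent.Lib.MP_e5e566_pr

noncomputable def q (l : ℝ) (k : ℤ) : ℝ≥0∞ := ENNReal.ofReal (ctrwProb l k)

noncomputable def Q (l : ℝ) (f : ℤ → ℝ≥0∞) (z : ℤ) : ℝ≥0∞ := ∑' b, q l b * f (z + b)

noncomputable def Sn (n : ℕ) (f : ℤ → ℝ≥0∞) (z : ℤ) : ℝ≥0∞ :=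
  ∑' b, ENNReal.ofReal (srwProb n b) * f (z + b)

noncomputable def pois (l : ℝ) (n : ℕ) : ℝ≥0∞ :=
  ENNReal.ofReal (Real.exp (-l) * l ^ n / (n.factorial : ℝ))

lemma Sn_zero (f : ℤ → ℝ≥0∞) (z : ℤ) : Sn 0 f z = f z := by
  unfold Sn
  rw [tsum_eq_single 0]
  · simp [srwProb]
  · intro b hb
    simp [srwProb, hb]

lemma Sn_succ (n : ℕ) (f : ℤ → ℝ≥0∞) (z : ℤ) :
    Sn (n + 1) f z = 2⁻¹ * (Sn n f (z + 1) + Sn n f (z - 1)) := by
  unfold Sn
  have h1 : ∑' b, ENNReal.ofReal (srwProb n b) * f (z + 1 + b)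
      = ∑' b, ENNReal.ofReal (srwProb n (b - 1)) * f (z + b) := by
    rw [← (Equiv.addRight (1 : ℤ)).tsum_eq
      (fun b => ENNReal.ofReal (srwProb n (b - 1)) * f (z + b))]
    congr 1; ext b
    simp only [Equiv.coe_addRight, add_sub_cancel_right]
    congr 2; ring
  have h2 : ∑' b, ENNReal.ofReal (srwProb n b) * f (z - 1 + b)
      = ∑' b, ENNReal.ofReal (srwProb n (b + 1)) * f (z + b) := by
    rw [← (Equiv.subRight (1 : ℤ)).tsum_eq
      (fun b => ENNReal.ofReal (srwProb n (b + 1)) * f (z + b))]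
    congr 1; ext b
    simp only [Equiv.subRight_apply, sub_add_cancel]
    congr 2; ring
  rw [h1, h2, ← ENNReal.tsum_add, ← ENNReal.tsum_mul_left]
  congr 1; ext b
  rw [srwProb, ENNReal.ofReal_div_of_pos (by norm_num),
    ENNReal.ofReal_add (srwProb_nonneg _ _) (srwProb_nonneg _ _), ← add_mul,
    ENNReal.div_eq_inv_mul, mul_assoc]
  norm_num

lemma Sn_Sn (n m : ℕ) (f : ℤ → ℝ≥0∞) (z : ℤ) : Sn n (Sn m f) z = Sn (n + m) f z := by
  induction n generalizing z with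
  | zero => rw [Sn_zero, zero_add]
  | succ n ih => rw [Sn_succ, ih, ih, add_right_comm, Sn_succ]

lemma Sn_const (n : ℕ) (c : ℝ≥0∞) (z : ℤ) : Sn n (fun _ => c) z = c := by
  induction n generalizing z with
  | zero => rw [Sn_zero]
  | succ n ih =>
    rw [Sn_succ, ih, ih, ← two_mul, ← mul_assoc, ENNReal.inv_mul_cancel (by norm_num) (by norm_num),
      one_mul]

lemma Sn_sq (n : ℕ) (z : ℤ) :
    Sn n (fun w => ENNReal.ofReal ((w : ℝ) ^ 2)) z = ENNReal.ofReal ((z : ℝ) ^ 2 + n) := by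
  induction n generalizing z with
  | zero => rw [Sn_zero]; simp
  | succ n ih =>
    rw [Sn_succ, ih, ih, ← ENNReal.ofReal_add (by positivity) (by positivity)]
    have : (((z + 1 : ℤ) : ℝ) ^ 2 + n + (((z - 1 : ℤ) : ℝ) ^ 2 + n))
        = 2 * ((z : ℝ) ^ 2 + ((n + 1 : ℕ) : ℝ)) := by push_cast; ring
    rw [this, ENNReal.ofReal_mul (by norm_num), ← mul_assoc]
    have : (2⁻¹ : ℝ≥0∞) * ENNReal.ofReal 2 = 1 := by
      rw [ENNReal.ofReal_ofNat, ENNReal.inv_mul_cancel (by norm_num) (by norm_num)]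
    rw [this, one_mul]

lemma q_eq {l : ℝ} (hl : 0 ≤ l) (k : ℤ) :
    q l k = ∑' n, pois l n * ENNReal.ofReal (srwProb n k) := by
  unfold q ctrwProb pois
  rw [ENNReal.ofReal_tsum_of_nonneg (fun n => by have := srwProb_nonneg n k; positivity)
    (summable_ctrw hl k)]
  congr 1; ext n
  rw [ENNReal.ofReal_mul (by positivity)]

lemma Q_eq {l : ℝ} (hl : 0 ≤ l) (f : ℤ → ℝ≥0∞) (z : ℤ) :
    Q l f z = ∑' n, pois l n * Sn n f z := by
  unfold Q Sn
  simp_rw [q_eq hl, ← ENNReal.tsum_mul_right, ← ENNReal.tsum_mul_left, mul_assoc]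
  exact ENNReal.tsum_comm

lemma tsum_pois {l : ℝ} (hl : 0 ≤ l) : ∑' n, pois l n = 1 := by
  unfold pois
  have h := hasSum_poisson_pow l 1
  simp only [one_pow, mul_one, sub_self, mul_zero, neg_zero, Real.exp_zero] at h
  rw [← ENNReal.ofReal_tsum_of_nonneg (fun n => by positivity) h.summable, h.tsum_eq,
    ENNReal.ofReal_one]

lemma tsum_pois_mul {l : ℝ} (hl : 0 ≤ l) : ∑' n, pois l n * n = ENNReal.ofReal l := by
  rw [tsum_eq_zero_add' ENNReal.summable]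
  have h : ∀ n : ℕ, pois l (n + 1) * ((n + 1 : ℕ) : ℝ≥0∞) = ENNReal.ofReal l * pois l n := by
    intro n
    unfold pois
    rw [← ENNReal.ofReal_natCast, ← ENNReal.ofReal_mul (by positivity),
      ← ENNReal.ofReal_mul hl]
    congr 1
    rw [Nat.factorial_succ]
    push_cast
    field_simp
    ring
  simp_rw [h]
  rw [ENNReal.tsum_mul_left, tsum_pois hl]
  simp

lemma pois_conv {l l' : ℝ} (hl : 0 ≤ l) (hl' : 0 ≤ l') (N : ℕ) :
    ∑ p ∈ antidiagonal N, pois l p.1 * pois l' p.2 = pois (l + l') N := by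
  unfold pois
  rw [(Commute.all l l').add_pow', Finset.mul_sum, Finset.sum_div,
    ENNReal.ofReal_sum_of_nonneg (fun p _ => by positivity)]
  refine sum_congr rfl fun p hp => ?_
  rw [← ENNReal.ofReal_mul (by positivity)]
  congr 1
  have h := mem_antidiagonal.1 hp
  have h3 : ((N.choose p.1 : ℕ) : ℝ) * p.1.factorial * p.2.factorial = N.factorial := by
    have := Nat.add_choose_mul_factorial_mul_factorial p.1 p.2
    rw [← Nat.choose_symm_add, h] at this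
    exact_mod_cast this
  rw [neg_add, Real.exp_add, nsmul_eq_mul, ← h3]
  have h4 : ((N.choose p.1 : ℕ) : ℝ) ≠ 0 := by
    have : 0 < N.choose p.1 := Nat.choose_pos (by omega)
    positivity
  field_simp

lemma Q_mono (l : ℝ) {f g : ℤ → ℝ≥0∞} (h : ∀ z, f z ≤ g z) (z : ℤ) : Q l f z ≤ Q l g z :=
  ENNReal.tsum_le_tsum fun b => by gcongr; exact h _

lemma Q_add (l : ℝ) (f g : ℤ → ℝ≥0∞) (z : ℤ) :
    Q l (fun w => f w + g w) z = Q l f z + Q l g z := by
  unfold Q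
  simp_rw [mul_add]
  exact ENNReal.tsum_add

lemma Q_const_mul (l : ℝ) (c : ℝ≥0∞) (f : ℤ → ℝ≥0∞) (z : ℤ) :
    Q l (fun w => c * f w) z = c * Q l f z := by
  unfold Q
  rw [← ENNReal.tsum_mul_left]
  congr 1; ext b; ring

lemma Q_const {l : ℝ} (hl : 0 ≤ l) (c : ℝ≥0∞) (z : ℤ) : Q l (fun _ => c) z = c := by
  rw [Q_eq hl]
  simp_rw [Sn_const]
  rw [ENNReal.tsum_mul_right, tsum_pois hl, one_mul]

lemma Q_sq {l : ℝ} (hl : 0 ≤ l) (z : ℤ) :
    Q l (fun w => ENNReal.ofReal ((w : ℝ) ^ 2)) z = ENNReal.ofReal ((z : ℝ) ^ 2 + l) := by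
  rw [Q_eq hl]
  simp_rw [Sn_sq]
  have : ∀ n : ℕ, pois l n * ENNReal.ofReal ((z : ℝ) ^ 2 + n)
      = pois l n * ENNReal.ofReal ((z : ℝ) ^ 2) + pois l n * n := by
    intro n
    rw [ENNReal.ofReal_add (by positivity) (by positivity), mul_add, ENNReal.ofReal_natCast]
  simp_rw [this]
  rw [ENNReal.tsum_add, ENNReal.tsum_mul_right, tsum_pois hl, tsum_pois_mul hl, one_mul,
    ENNReal.ofReal_add (by positivity) hl]

lemma Q_zero (f : ℤ → ℝ≥0∞) (z : ℤ) : Q 0 f z = f z := by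
  rw [Q_eq le_rfl, tsum_eq_single 0]
  · simp [pois, Sn_zero]
  · intro n hn
    simp [pois, hn]

lemma Q_Q {l l' : ℝ} (hl : 0 ≤ l) (hl' : 0 ≤ l') (f : ℤ → ℝ≥0∞) (z : ℤ) :
    Q l (Q l' f) z = Q (l + l') f z := by
  have h1 : ∀ n, Sn n (Q l' f) z = ∑' m, pois l' m * Sn (n + m) f z := by
    intro n
    simp_rw [← Sn_Sn]
    have e : ∀ g : ℤ → ℝ≥0∞, Sn n g z = ∑' b, ENNReal.ofReal (srwProb n b) * g (z + b) :=
      fun g => rfl
    simp_rw [e, Q_eq hl', ← ENNReal.tsum_mul_left]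
    rw [ENNReal.tsum_comm]
    congr 1; ext m; congr 1; ext b
    ring
  rw [Q_eq hl, Q_eq (add_nonneg hl hl')]
  simp_rw [h1, ← ENNReal.tsum_mul_left, ← pois_conv hl hl', Finset.sum_mul]
  rw [← ENNReal.tsum_prod, ← Finset.HasAntidiagonal.sigmaAntidiagonalEquivProd.tsum_eq, ENNReal.tsum_sigma']
  congr 1; ext N
  rw [tsum_fintype, ← Finset.sum_coe_sort (antidiagonal N)]
  refine sum_congr rfl fun p _ => ?_
  have h := mem_antidiagonal.1 p.2
  simp only [Finset.HasAntidiagonal.sigmaAntidiagonalEquivProd_apply]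
  rw [h, mul_assoc]

lemma q_neg {l : ℝ} (hl : 0 ≤ l) (k : ℤ) : q l (-k) = q l k := by
  unfold q; rw [ctrwProb_neg hl]

lemma Q_eq_sub (l : ℝ) (f : ℤ → ℝ≥0∞) (z : ℤ) : Q l f z = ∑' w, q l (w - z) * f w := by
  unfold Q
  rw [← (Equiv.addLeft z).tsum_eq (fun w => q l (w - z) * f w)]
  simp

lemma Q_adj {l : ℝ} (hl : 0 ≤ l) (f g : ℤ → ℝ≥0∞) :
    ∑' z, f z * Q l g z = ∑' z, Q l f z * g z := by
  simp_rw [Q_eq_sub, ← ENNReal.tsum_mul_left, ← ENNReal.tsum_mul_right]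
  rw [ENNReal.tsum_comm]
  congr 1; ext w; congr 1; ext z
  rw [← q_neg hl (w - z), neg_sub]
  ring

lemma Q_single (l : ℝ) (x z : ℤ) : Q l (fun w => if w = x then 1 else 0) z = q l (x - z) := by
  rw [Q_eq_sub, tsum_eq_single x]
  · simp
  · intro w hw; simp [hw]

lemma Q_q {l l' : ℝ} (hl : 0 ≤ l) (hl' : 0 ≤ l') (x z : ℤ) :
    Q l (fun w => q l' (x - w)) z = q (l + l') (x - z) := by
  simp_rw [← Q_single l' x]
  rw [Q_Q hl hl', Q_single]

end Pool.Agent.Lib.MP_e5e566_pr
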