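import Pool.Agent.Lib.MP_e5e566_pr.Reduce

/-!
Deterministic convergence of the discretised weights to the continuous-time weight.
-/

open MeasureTheory ProbabilityTheory Finset Filter Topology
open scoped ENNReal NNReal

set_option maxHeartbeats 400000

namespace Pool.Agent.Lib.MP_e5e566_pr

/-- `exp (-u)` for `u` in the extended nonnegative reals -/
noncomputable def ex (u : ℝ≥0∞) : ℝ≥0∞ := EReal.exp (-(u : EReal))

lemma ex_zero : ex 0 = 1 := by simp [ex]

lemma ex_top : ex ∞ = 0 := by simp [ex]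

lemma ex_add (u v : ℝ≥0∞) : ex (u + v) = ex u * ex v := by
  unfold ex
  rw [EReal.exp_neg, EReal.exp_neg, EReal.exp_neg, EReal.coe_ennreal_add, EReal.exp_add,
    ENNReal.mul_inv (Or.inl (by simp)) (Or.inr (by simp))]

lemma ex_sum {ι : Type*} (s : Finset ι) (f : ι → ℝ≥0∞) : ex (∑ i ∈ s, f i) = ∏ i ∈ s, ex (f i) := by
  classical
  induction s using Finset.induction_on with
  | empty => simp [ex_zero]
  | insert a s ha ih => rw [sum_insert ha, prod_insert ha, ex_add, ih]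

lemma ex_anti {u v : ℝ≥0∞} (h : u ≤ v) : ex v ≤ ex u := by
  unfold ex
  rw [EReal.exp_le_exp_iff, EReal.neg_le_neg_iff]
  exact_mod_cast h

lemma ex_le_one (u : ℝ≥0∞) : ex u ≤ 1 := (ex_anti zero_le).trans ex_zero.le

lemma continuous_ex : Continuous ex :=
  ENNReal.continuous_exp.comp (continuous_neg.comp continuous_coe_ennreal_ereal)

lemma ex_ofReal {a : ℝ} (ha : 0 ≤ a) : ex (ENNReal.ofReal a) = ENNReal.ofReal (Real.exp (-a)) := by
  unfold ex
  rw [EReal.coe_ennreal_ofReal, max_eq_left ha, ← EReal.coe_neg, EReal.exp_coe]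

lemma kill_map {ι : Type*} (s : ℝ≥0∞) (l : List ι) (f g : ι → ℤ) :
    kill s (l.map f) (l.map g) = (l.map fun i => if g i = f i then s else 1).prod := by
  induction l with
  | nil => simp [kill]
  | cons a l ih => simp only [List.map_cons, kill, List.prod_cons, ih]

lemma kill_skel (s : ℝ≥0∞) (δ : ℝ≥0) (n : ℕ) (y : ℤ) (x z : ℝ≥0 → ℤ) :
    kill s (skel δ n 0 x) (skel δ n y z) = ∏ i ∈ range n,
      if y + z (((i + 1 : ℕ) : ℝ≥0) * δ) = x (((i + 1 : ℕ) : ℝ≥0) * δ) then s else 1 := by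
  unfold skel
  rw [kill_map, ← List.prod_toFinset _ List.nodup_range, List.toFinset_range]
  simp only [zero_add]

/-- grid point to the right -/
noncomputable def gp (δ σ : ℝ≥0) : ℝ≥0 := (⌈σ / δ⌉₊ : ℝ≥0) * δ

lemma le_gp {δ : ℝ≥0} (hδ : 0 < δ) (σ : ℝ≥0) : σ ≤ gp δ σ := by
  unfold gp
  rw [← div_le_iff₀ hδ]
  exact Nat.le_ceil _

lemma gp_le {δ : ℝ≥0} (hδ : 0 < δ) (σ : ℝ≥0) : gp δ σ ≤ σ + δ := by
  unfold gp
  rw [← le_div_iff₀ hδ, add_div, div_self hδ.ne']
  exact (Nat.ceil_lt_add_one zero_le).le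

lemma tendsto_gp {t : ℝ≥0} (ht : 0 < t) (σ : ℝ≥0) :
    Tendsto (fun n : ℕ => gp (t / n) σ) atTop (𝓝[Set.Ici σ] σ) := by
  have hpos : ∀ᶠ n : ℕ in atTop, 0 < t / n := by
    filter_upwards [eventually_gt_atTop 0] with n hn
    have : (0 : ℝ≥0) < n := by exact_mod_cast hn
    positivity
  refine tendsto_nhdsWithin_iff.2 ⟨?_, hpos.mono fun n hn => le_gp hn σ⟩
  have h1 : Tendsto (fun n : ℕ => σ + t / n) atTop (𝓝 σ) := by
    have := (tendsto_const_div_atTop_nhds_zero_nat t).const_add σ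
    rwa [add_zero] at this
  exact tendsto_of_tendsto_of_tendsto_of_le_of_le' tendsto_const_nhds h1
    (hpos.mono fun n hn => le_gp hn σ) (hpos.mono fun n hn => gp_le hn σ)

lemma eventually_eq_of_rightCont {x : ℝ≥0 → ℤ} {σ : ℝ≥0}
    (h : ContinuousWithinAt x (Set.Ici σ) σ) : ∀ᶠ u in 𝓝[Set.Ici σ] σ, x u = x σ := by
  have := h.tendsto
  rwa [nhds_discrete, tendsto_pure] at this

lemma measurable_comp_gp (δ : ℝ≥0) (f : ℝ≥0 → ℝ≥0∞) :
    Measurable (fun s : ℝ => f (gp δ s.toNNReal)) := by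
  have h1 : Measurable (fun k : ℕ => f ((k : ℝ≥0) * δ)) := Measurable.of_discrete
  have h2 : Measurable (fun s : ℝ => ⌈s.toNNReal / δ⌉₊) :=
    Nat.measurable_ceil.comp (measurable_real_toNNReal.div_const δ)
  exact h1.comp h2

lemma lintegral_gp {δ : ℝ≥0} (hδ : 0 < δ) (f : ℝ≥0 → ℝ≥0∞) (k : ℕ) :
    ∫⁻ s in Set.Ioc (0 : ℝ) (k * δ), f (gp δ s.toNNReal)
      = ∑ i ∈ range k, f (((i + 1 : ℕ) : ℝ≥0) * δ) * δ := by
  have hδ' : (0 : ℝ) < δ := hδ
  induction k with
  | zero => simp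
  | succ k ih =>
    have h1 : (k : ℝ) * δ ≤ ((k + 1 : ℕ) : ℝ) * δ := by gcongr; omega
    rw [← Set.Ioc_union_Ioc_eq_Ioc (b := (k : ℝ) * δ) (by positivity) h1,
      lintegral_union measurableSet_Ioc (Set.Ioc_disjoint_Ioc_of_le le_rfl), ih, sum_range_succ]
    congr 1
    rw [setLIntegral_congr_fun measurableSet_Ioc (g := fun _ => f (((k + 1 : ℕ) : ℝ≥0) * δ))]
    · rw [setLIntegral_const, Real.volume_Ioc]
      congr 1
      have : ((k + 1 : ℕ) : ℝ) * δ - k * δ = δ := by push_cast; ring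
      rw [this, ENNReal.ofReal_coe_nnreal]
    · intro s hs
      have hs0 : 0 ≤ s := le_trans (by positivity) hs.1.le
      have : ⌈s.toNNReal / δ⌉₊ = k + 1 := by
        rw [Nat.ceil_eq_iff (by omega), Nat.add_sub_cancel, lt_div_iff₀ hδ, div_le_iff₀ hδ,
          ← NNReal.coe_lt_coe, ← NNReal.coe_le_coe, Real.coe_toNNReal _ hs0]
        exact ⟨by simpa using hs.1, by simpa using hs.2⟩
      simp only [gp, this]

section OneTrap

variable {x z : ℝ≥0 → ℤ}

/-- indicator that the trap and the walk share a site -/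
noncomputable def meet (y : ℤ) (x z : ℝ≥0 → ℤ) (s : ℝ≥0) : ℝ≥0∞ := if y + z s = x s then 1 else 0

lemma tendsto_meet_gp (hx : ∀ s, ContinuousWithinAt x (Set.Ici s) s)
    (hz : ∀ s, ContinuousWithinAt z (Set.Ici s) s) (y : ℤ) {t : ℝ≥0} (ht : 0 < t) (σ : ℝ≥0) :
    ∀ᶠ n : ℕ in atTop, meet y x z (gp (t / n) σ) = meet y x z σ := by
  filter_upwards [(tendsto_gp ht σ).eventually (eventually_eq_of_rightCont (hx σ)),
    (tendsto_gp ht σ).eventually (eventually_eq_of_rightCont (hz σ))] with n h1 h2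
  simp only [meet, h1, h2]

lemma measurable_meet (hx : ∀ s, ContinuousWithinAt x (Set.Ici s) s)
    (hz : ∀ s, ContinuousWithinAt z (Set.Ici s) s) (y : ℤ) :
    Measurable (fun s : ℝ => meet y x z s.toNNReal) := by
  refine ENNReal.measurable_of_tendsto (f := fun n s => meet y x z (gp (1 / n) s.toNNReal))
    (fun n => measurable_comp_gp (1 / n) (meet y x z)) (tendsto_pi_nhds.2 fun s => ?_)
  exact tendsto_const_nhds.congr'
    ((tendsto_meet_gp hx hz y one_pos s.toNNReal).mono fun n hn => hn.symm)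

lemma tendsto_riemann (hx : ∀ s, ContinuousWithinAt x (Set.Ici s) s)
    (hz : ∀ s, ContinuousWithinAt z (Set.Ici s) s) (y : ℤ) {t : ℝ≥0} (ht : 0 < t) :
    Tendsto (fun n : ℕ => ∑ i ∈ range n,
      meet y x z (((i + 1 : ℕ) : ℝ≥0) * (t / n)) * (t / n : ℝ≥0)) atTop
      (𝓝 (∫⁻ s in Set.Icc (0 : ℝ) t, meet y x z s.toNNReal)) := by
  rw [← restrict_Ioc_eq_restrict_Icc]
  have h1 := tendsto_lintegral_of_dominated_convergence (μ := volume.restrict (Set.Ioc (0 : ℝ) t))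
    (F := fun (n : ℕ) (s : ℝ) => meet y x z (gp (t / n) s.toNNReal))
    (f := fun s => meet y x z s.toNNReal) (fun _ => 1)
    (fun n => measurable_comp_gp (t / n) (meet y x z))
    (fun n => Eventually.of_forall fun s => by simp only [meet]; split_ifs <;> simp)
    (by simp) (Eventually.of_forall fun s => tendsto_const_nhds.congr'
      ((tendsto_meet_gp hx hz y ht s.toNNReal).mono fun n hn => hn.symm))
  refine h1.congr' ?_
  filter_upwards [eventually_gt_atTop 0] with n hn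
  have hn' : (0 : ℝ≥0) < n := by exact_mod_cast hn
  rw [← lintegral_gp (by positivity)]
  have : (n : ℝ) * ((t / n : ℝ≥0) : ℝ) = t := by
    push_cast
    have : (n : ℝ) ≠ 0 := by positivity
    field_simp
  rw [this]

/-- the survival weight against a single trap -/
noncomputable def trapW (γ : ℝ≥0∞) (t : ℝ≥0) (y : ℤ) (x z : ℝ≥0 → ℤ) : ℝ≥0∞ :=
  if γ = ∞ then ind (∀ s ≤ t, y + z s ≠ x s)
  else ex (γ * ∫⁻ s in Set.Icc (0 : ℝ) t, meet y x z s.toNNReal)

lemma trapW_le_one (γ : ℝ≥0∞) (t : ℝ≥0) (y : ℤ) (x z : ℝ≥0 → ℤ) : trapW γ t y x z ≤ 1 := by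
  unfold trapW
  split_ifs
  · exact ind_le_one _
  · exact ex_le_one _

lemma tendsto_kill (hx : ∀ s, ContinuousWithinAt x (Set.Ici s) s)
    (hz : ∀ s, ContinuousWithinAt z (Set.Ici s) s) (γ : ℝ≥0∞) (y : ℤ) {t : ℝ≥0} (ht : 0 < t) :
    Tendsto (fun n : ℕ => kill (ex (γ * (t / n : ℝ≥0))) (skel (t / n) n 0 x) (skel (t / n) n y z))
      atTop (𝓝 (trapW γ t y x z)) := by
  simp only [kill_skel]
  unfold trapW
  split_ifs with hγ
  · subst hγ
    by_cases h : ∀ s ≤ t, y + z s ≠ x s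
    · rw [ind_pos h]
      refine tendsto_const_nhds.congr fun n => (prod_eq_one fun i hi => ?_).symm
      rw [if_neg]
      refine h _ ?_
      have hi' : i + 1 ≤ n := mem_range.1 hi
      have hn' : (0 : ℝ≥0) < n := by exact_mod_cast (by omega : 0 < n)
      rw [mul_div_assoc', div_le_iff₀ hn', mul_comm]
      gcongr
    · rw [ind_neg h]
      push Not at h
      obtain ⟨σ, hσ, hm⟩ := h
      obtain ⟨σ', h0, hσ', hm'⟩ : ∃ σ' : ℝ≥0, 0 < σ' ∧ σ' ≤ t ∧ y + z σ' = x σ' := by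
        rcases eq_or_lt_of_le (zero_le : 0 ≤ σ) with rfl | h0
        · have h1 := (eventually_eq_of_rightCont (hx 0)).and (eventually_eq_of_rightCont (hz 0))
          have h2 : ∀ᶠ u in 𝓝[Set.Ioi 0] (0 : ℝ≥0), x u = x 0 ∧ z u = z 0 :=
            h1.filter_mono (nhdsWithin_mono _ Set.Ioi_subset_Ici_self)
          have h3 : ∀ᶠ u in 𝓝[Set.Ioi 0] (0 : ℝ≥0), u ∈ Set.Ioo 0 t := Ioo_mem_nhdsGT ht
          obtain ⟨u, hu1, hu2⟩ := (h2.and h3).exists
          exact ⟨u, hu2.1, hu2.2.le, by rw [hu1.1, hu1.2, hm]⟩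
        · exact ⟨σ, h0, hσ, hm⟩
      refine tendsto_const_nhds.congr' ?_
      filter_upwards [tendsto_meet_gp hx hz y ht σ', eventually_gt_atTop 0] with n h1 hn
      have hn' : (0 : ℝ≥0) < n := by exact_mod_cast hn
      have hδ : 0 < t / n := by positivity
      have h2 : 0 < ⌈σ' / (t / n)⌉₊ := Nat.ceil_pos.2 (by positivity)
      have h3 : ⌈σ' / (t / n)⌉₊ ≤ n := by
        rw [Nat.ceil_le, div_le_iff₀ hδ, mul_div_cancel₀ _ hn'.ne']
        exact hσ'
      refine (prod_eq_zero (i := ⌈σ' / (t / n)⌉₊ - 1) (mem_range.2 (by omega)) ?_).symm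
      have h4 : ⌈σ' / (t / n)⌉₊ - 1 + 1 = ⌈σ' / (t / n)⌉₊ := by omega
      rw [h4]
      have h5 : y + z (gp (t / n) σ') = x (gp (t / n) σ') := by
        by_contra h6
        simp [meet, h6, hm'] at h1
      rw [if_pos (by exact h5), ENNReal.top_mul (by exact_mod_cast hδ.ne'), ex_top]
  · have h1 := (continuous_ex.tendsto _).comp
      (ENNReal.Tendsto.const_mul (a := γ) (tendsto_riemann hx hz y ht) (Or.inr hγ))
    refine h1.congr fun n => ?_
    simp only [Function.comp_apply]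
    rw [mul_sum, ex_sum]
    refine prod_congr rfl fun i _ => ?_
    unfold meet
    split_ifs
    · rw [one_mul]
    · rw [zero_mul, mul_zero, ex_zero]

end OneTrap

section Field

variable {Ω : Type*} {X : ℝ≥0 → Ω → ℤ} {N : ℤ → Ω → ℕ} {Y : ℤ × ℕ → ℝ≥0 → Ω → ℤ}

/-- the weight for the traps started in the finite set `F` -/
noncomputable def truncW (γ : ℝ≥0∞) (X : ℝ≥0 → Ω → ℤ) (N : ℤ → Ω → ℕ)
    (Y : ℤ × ℕ → ℝ≥0 → Ω → ℤ) (t : ℝ≥0) (F : Finset ℤ) (ω : Ω) : ℝ≥0∞ :=
  ∏ y ∈ F, ∏ j ∈ range (N y ω), trapW γ t y (fun s => X s ω) (fun s => Y (y, j) s ω)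

lemma truncW_le_one (γ : ℝ≥0∞) (t : ℝ≥0) (F : Finset ℤ) (ω : Ω) : truncW γ X N Y t F ω ≤ 1 :=
  prod_le_one' fun _ _ => prod_le_one' fun _ _ => trapW_le_one _ _ _ _ _

lemma tendsto_discW {ω : Ω} (hx : ∀ s, ContinuousWithinAt (fun u => X u ω) (Set.Ici s) s)
    (hz : ∀ i s, ContinuousWithinAt (fun u => Y i u ω) (Set.Ici s) s) (γ : ℝ≥0∞) {t : ℝ≥0}
    (ht : 0 < t) (F : Finset ℤ) :
    Tendsto (fun n : ℕ => discW (ex (γ * (t / n : ℝ≥0))) (t / n) n F
      (skel (t / n) n 0 (fun s => X s ω)) ((fun y => N y ω), (fun i s => Y i s ω))) atTop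
      (𝓝 (truncW γ X N Y t F ω)) := by
  refine ENNReal.tendsto_finsetProd_of_ne_top F (fun y _ => ?_) fun y _ => ?_
  · refine ENNReal.tendsto_finsetProd_of_ne_top _ (fun j _ => tendsto_kill hx (hz _) γ y ht)
      fun j _ => ne_top_of_le_ne_top ENNReal.one_ne_top (trapW_le_one _ _ _ _ _)
  · exact ne_top_of_le_ne_top ENNReal.one_ne_top
      (prod_le_one' fun _ _ => trapW_le_one _ _ _ _ _)

lemma tendsto_truncW {ω : Ω} (hx : ∀ s, ContinuousWithinAt (fun u => X u ω) (Set.Ici s) s)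
    (hz : ∀ i s, ContinuousWithinAt (fun u => Y i u ω) (Set.Ici s) s) (γ : ℝ≥0∞) (t : ℝ≥0) :
    Tendsto (fun F : Finset ℤ => truncW γ X N Y t F ω) atTop
      (𝓝 (survivalWeight γ X N Y t ω)) := by
  unfold truncW survivalWeight trapW
  split_ifs with hγ h
  · refine tendsto_const_nhds.congr fun F => (prod_eq_one fun y _ => prod_eq_one fun j hj => ?_).symm
    refine ind_pos fun s hs hm => ?_
    have h1 := h s hs
    unfold trapField at h1
    rw [ENNReal.tsum_eq_zero] at h1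
    have h2 := sum_eq_zero_iff.1 (h1 y) j hj
    simp [hm] at h2
  · push Not at h
    obtain ⟨s, hs, h1⟩ := h
    unfold trapField at h1
    rw [Ne, ENNReal.tsum_eq_zero] at h1
    push Not at h1
    obtain ⟨y, h2⟩ := h1
    obtain ⟨j, hj, h3⟩ := exists_ne_zero_of_sum_ne_zero h2
    have h4 : y + Y (y, j) s ω = X s ω := by
      by_contra h5
      simp [h5] at h3
    refine tendsto_const_nhds.congr' ?_
    filter_upwards [eventually_ge_atTop {y}] with F hF
    refine (prod_eq_zero (hF (mem_singleton_self y)) (prod_eq_zero hj ?_)).symm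
    exact ind_neg fun h5 => h5 s hs h4
  · have hm : ∀ y j, Measurable (fun s : ℝ =>
        meet y (fun u => X u ω) (fun u => Y (y, j) u ω) s.toNNReal) :=
      fun y j => measurable_meet hx (hz _) y
    have h1 : ∫⁻ s in Set.Icc (0 : ℝ) t, trapField N Y s.toNNReal (X s.toNNReal ω) ω
        = ∑' y, ∑ j ∈ range (N y ω), ∫⁻ s in Set.Icc (0 : ℝ) t,
          meet y (fun u => X u ω) (fun u => Y (y, j) u ω) s.toNNReal := by
      have e : ∀ s : ℝ, trapField N Y s.toNNReal (X s.toNNReal ω) ω = ∑' y, ∑ j ∈ range (N y ω),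
          meet y (fun u => X u ω) (fun u => Y (y, j) u ω) s.toNNReal := fun s => rfl
      simp_rw [e]
      rw [lintegral_tsum fun y => (Finset.measurable_sum _ fun j _ => hm y j).aemeasurable]
      congr 1; ext y
      exact lintegral_finsetSum _ fun j _ => hm y j
    rw [h1]
    have h2 : Tendsto (fun F : Finset ℤ => ∑ y ∈ F, ∑ j ∈ range (N y ω),
        ∫⁻ s in Set.Icc (0 : ℝ) t, meet y (fun u => X u ω) (fun u => Y (y, j) u ω) s.toNNReal)
        atTop (𝓝 (∑' y, ∑ j ∈ range (N y ω), ∫⁻ s in Set.Icc (0 : ℝ) t,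
          meet y (fun u => X u ω) (fun u => Y (y, j) u ω) s.toNNReal)) :=
      ENNReal.summable.hasSum
    have h3 := (continuous_ex.tendsto _).comp
      (ENNReal.Tendsto.const_mul (a := γ) h2 (Or.inr hγ))
    refine h3.congr fun F => ?_
    simp only [Function.comp_apply]
    rw [mul_sum, ex_sum]
    refine prod_congr rfl fun y _ => ?_
    rw [mul_sum, ex_sum]

end Field

end Pool.Agent.Lib.MP_e5e566_pr
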