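import Pool.Agent.Lib.MP_e5e566_pr.Window

/-!
Reduction of the time-discretised and space-truncated model to sums over discrete paths.
-/

open MeasureTheory ProbabilityTheory Finset
open scoped ENNReal NNReal

namespace Pool.Agent.Lib.MP_e5e566_pr

/-- the discrete measurable structure on lists of integers, used only in proofs -/
local instance listMS : MeasurableSpace (List ℤ) := ⊤

local instance listDiscrete : DiscreteMeasurableSpace (List ℤ) := ⟨fun _ => trivial⟩

/-- positions of a walk started at `z` with steps `e` -/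
def walkList : ℕ → ℤ → (ℕ → ℤ) → List ℤ
  | 0, _, _ => []
  | n + 1, z, e => (z + e 0) :: walkList n (z + e 0) (fun i => e (i + 1))

lemma walkList_eq (n : ℕ) (a : ℕ → ℤ) :
    walkList n (a 0) (fun i => a (i + 1) - a i) = (List.range n).map (fun i => a (i + 1)) := by
  induction n generalizing a with
  | zero => rfl
  | succ n ih =>
    have := ih (fun i => a (i + 1))
    simp only [walkList, List.range_succ_eq_map, List.map_cons, List.map_map, zero_add,
      add_sub_cancel]
    rw [zero_add] at this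
    rw [this]
    rfl

lemma measurable_walkList (n : ℕ) (z : ℤ) (F : List ℤ → ℝ≥0∞) :
    Measurable (fun e : ℕ → ℤ => F (walkList n z e)) := by
  induction n generalizing z F with
  | zero => exact (measurable_const : Measurable (fun _ : ℕ → ℤ => F []))
  | succ n ih =>
    have h1 : Measurable (fun p : ℤ × (ℕ → ℤ) => F ((z + p.1) :: walkList n (z + p.1) p.2)) :=
      measurable_from_prod_countable_right fun b => ih (z + b) (fun xs => F ((z + b) :: xs))
    have h2 : Measurable (fun e : ℕ → ℤ => ((e 0, fun i => e (i + 1)) : ℤ × (ℕ → ℤ))) := by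
      fun_prop
    exact h1.comp h2

lemma lintegral_indep {Ω α β : Type*} [MeasurableSpace Ω] [MeasurableSpace α] [MeasurableSpace β]
    {P : Measure Ω} [IsProbabilityMeasure P] {U : Ω → α} {V : Ω → β} (hU : Measurable U)
    (hV : Measurable V) (h : IndepFun U V P) {G : α × β → ℝ≥0∞} (hG : Measurable G) :
    ∫⁻ ω, G (U ω, V ω) ∂P = ∫⁻ ω, ∫⁻ ω', G (U ω, V ω') ∂P ∂P := by
  have := Measure.isProbabilityMeasure_map (μ := P) hV.aemeasurable
  rw [← lintegral_map hG (hU.prodMk hV), h.map_prod_eq_prod_map_map hU.aemeasurable hV.aemeasurable,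
    lintegral_prod _ hG.aemeasurable, lintegral_map hG.lintegral_prod_right' hU]
  congr 1; ext ω
  exact lintegral_map (hG.comp measurable_prodMk_left) hV

lemma lintegral_walkList {Ω : Type*} [MeasurableSpace Ω] {P : Measure Ω} [IsProbabilityMeasure P]
    (l : ℝ) (n : ℕ) (z : ℤ) (F : List ℤ → ℝ≥0∞) (ξ : ℕ → Ω → ℤ) (hm : ∀ i, Measurable (ξ i))
    (hi : iIndepFun ξ P) (hl : ∀ i b, P {ω | ξ i ω = b} = q l b) :
    ∫⁻ ω, F (walkList n z (fun i => ξ i ω)) ∂P = EP l n z F := by
  induction n generalizing z F ξ with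
  | zero => simp [walkList, EP]
  | succ n ih =>
    have hind : IndepFun (ξ 0) (fun ω i => ξ (i + 1) ω) P := by
      refine IndepFun.indepFun_process (hm 0) (fun i => hm (i + 1)) fun I => ?_
      have h1 := hi.indepFun_finset {0} (I.image Nat.succ) (by simp) hm
      have h2 : Measurable (fun f : ({0} : Finset ℕ) → ℤ => f ⟨0, by simp⟩) :=
        measurable_pi_apply _
      have h3 : Measurable (fun (f : ↥(I.image Nat.succ) → ℤ) (i : I) =>
          f ⟨i + 1, mem_image_of_mem _ i.2⟩) :=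
        measurable_pi_lambda _ fun i => measurable_pi_apply _
      exact h1.comp h2 h3
    have h1 : Measurable (fun p : ℤ × (ℕ → ℤ) => F ((z + p.1) :: walkList n (z + p.1) p.2)) :=
      measurable_from_prod_countable_right fun b =>
        measurable_walkList n (z + b) (fun xs => F ((z + b) :: xs))
    have h2 := lintegral_indep (hm 0) (measurable_pi_lambda _ fun i => hm (i + 1)) hind h1
    have h3 : ∀ b : ℤ, ∫⁻ ω', F ((z + b) :: walkList n (z + b) (fun i => ξ (i + 1) ω')) ∂P
        = EP l n (z + b) (fun xs => F ((z + b) :: xs)) := fun b =>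
      ih (z + b) (fun xs => F ((z + b) :: xs)) (fun i => ξ (i + 1)) (fun i => hm (i + 1))
        (hi.precomp (g := fun i => i + 1) (add_left_injective 1)) (fun i => hl (i + 1))
    simp only [h3] at h2
    simp only [walkList, EP, Q]
    rw [h2, ← lintegral_map (f := fun b => EP l n (z + b) (fun xs => F ((z + b) :: xs)))
      Measurable.of_discrete (hm 0), lintegral_countable']
    congr 1; ext b
    rw [mul_comm, Measure.map_apply (hm 0) (measurableSet_singleton b), ← hl 0 b]
    rfl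

/-- the positions of the path `y + x` at the times `δ, 2 δ, ..., n δ` -/
def skel (δ : ℝ≥0) (n : ℕ) (y : ℤ) (x : ℝ≥0 → ℤ) : List ℤ :=
  (List.range n).map (fun i : ℕ => y + x (((i + 1 : ℕ) : ℝ≥0) * δ))

lemma skel_length (δ : ℝ≥0) (n : ℕ) (y : ℤ) (x : ℝ≥0 → ℤ) : (skel δ n y x).length = n := by
  simp [skel]

lemma skel_eq (δ : ℝ≥0) (n : ℕ) (y : ℤ) (x : ℝ≥0 → ℤ) :
    skel δ n y x = walkList n (y + x 0)
      (fun i => x (((i + 1 : ℕ) : ℝ≥0) * δ) - x ((i : ℝ≥0) * δ)) := by
  have := walkList_eq n (fun i => y + x ((i : ℝ≥0) * δ))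
  simp only [Nat.cast_zero, zero_mul, add_sub_add_left_eq_sub] at this
  rw [this]
  rfl

lemma measurable_skel (δ : ℝ≥0) (n : ℕ) (y : ℤ) : Measurable (skel δ n y) := by
  refine measurable_to_countable' fun xs => ?_
  have h1 : Measurable (fun p : ℤ × (ℕ → ℤ) => ind (walkList n p.1 p.2 = xs)) :=
    measurable_from_prod_countable_right fun b => measurable_walkList n b (fun ys => ind (ys = xs))
  have h2 : Measurable (fun x : ℝ≥0 → ℤ => ind (skel δ n y x = xs)) := by
    simp_rw [skel_eq]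
    have h2 : Measurable (fun x : ℝ≥0 → ℤ => ((y + x 0,
        fun i : ℕ => x (((i + 1 : ℕ) : ℝ≥0) * δ) - x ((i : ℝ≥0) * δ)) : ℤ × (ℕ → ℤ))) := by
      fun_prop
    exact h1.comp h2
  have h3 := h2 (measurableSet_singleton 1)
  convert h3 using 1
  ext x
  by_cases h : skel δ n y x = xs <;> simp [ind, h]

lemma IsWalk.lintegral_skel {Ω : Type*} [MeasurableSpace Ω] {P : Measure Ω}
    [IsProbabilityMeasure P] {r : ℝ} {X : ℝ≥0 → Ω → ℤ} (h : IsWalk P r X) (δ : ℝ≥0) (n : ℕ) (y : ℤ)
    (F : List ℤ → ℝ≥0∞) :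
    ∫⁻ ω, F (skel δ n y (fun s => X s ω)) ∂P = EP (r * δ) n y F := by
  simp only [skel_eq, h.start, add_zero]
  refine lintegral_walkList (r * δ) n y F
    (fun i ω => X (((i + 1 : ℕ) : ℝ≥0) * δ) ω - X ((i : ℝ≥0) * δ) ω)
    (fun i => (h.measurable _).sub (h.measurable _)) ?_ fun i b => ?_
  · refine h.indepIncr.nat (t := fun i : ℕ => (i : ℝ≥0) * δ) fun i j hij => ?_
    have : (i : ℝ≥0) ≤ j := by exact_mod_cast hij
    simp only
    gcongr
  · have h1 := h.incrLaw ((i : ℝ≥0) * δ) (((i + 1 : ℕ) : ℝ≥0) * δ) (by gcongr; omega) b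
    have e : ((((i + 1 : ℕ) : ℝ≥0) * δ : ℝ≥0) : ℝ) - (((i : ℝ≥0) * δ : ℝ≥0) : ℝ) = δ := by
      push_cast; ring
    rw [e] at h1
    rw [q, ← h1, Measure.real, ENNReal.ofReal_toReal (measure_ne_top _ _)]

/-- survival factor of a discrete path against a discrete trap path -/
noncomputable def kill (s : ℝ≥0∞) : List ℤ → List ℤ → ℝ≥0∞
  | x :: xs, y :: ys => (if y = x then s else 1) * kill s xs ys
  | _, _ => 1

lemma EP_kill (l : ℝ) (s : ℝ≥0∞) (xs : List ℤ) (y : ℤ) :
    EP l xs.length y (kill s xs) = T l s xs (fun _ => 1) y := by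
  induction xs generalizing y with
  | nil => simp [EP, T, kill]
  | cons x xs ih => simp only [List.length_cons, EP, T, kill, EP_const_mul, ih]

lemma lintegral_pow_poisson {Ω : Type*} [MeasurableSpace Ω] {P : Measure Ω} {ν : ℝ≥0}
    {M : Ω → ℕ} (h : HasLaw M (poissonMeasure ν) P) {a : ℝ≥0∞} (ha : a ≠ ∞) :
    ∫⁻ ω, a ^ M ω ∂P = ENNReal.ofReal (Real.exp (-(ν * (1 - a.toReal)))) := by
  rw [h.lintegral_comp (f := fun k => a ^ k) Measurable.of_discrete.aemeasurable,
    lintegral_countable']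
  have h1 := hasSum_poisson_pow ν a.toReal
  rw [← h1.tsum_eq, ENNReal.ofReal_tsum_of_nonneg (fun n => by positivity) h1.summable]
  congr 1; ext k
  rw [poissonMeasure_singleton, ENNReal.ofReal_mul (by positivity), mul_comm,
    ENNReal.ofReal_pow ENNReal.toReal_nonneg, ENNReal.ofReal_toReal ha]

/-- the discretised and truncated weight -/
noncomputable def discW (s : ℝ≥0∞) (δ : ℝ≥0) (n : ℕ) (F : Finset ℤ) (xs : List ℤ)
    (v : (ℤ → ℕ) × (ℤ × ℕ → ℝ≥0 → ℤ)) : ℝ≥0∞ :=
  ∏ y ∈ F, ∏ j ∈ range (v.1 y), kill s xs (skel δ n y (v.2 (y, j)))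

lemma measurable_discW (s : ℝ≥0∞) (δ : ℝ≥0) (n : ℕ) (F : Finset ℤ) (xs : List ℤ) :
    Measurable (discW s δ n F xs) := by
  refine Finset.measurable_prod _ fun y _ => ?_
  have h1 : Measurable (fun p : ℕ × (ℤ × ℕ → ℝ≥0 → ℤ) =>
      ∏ j ∈ range p.1, kill s xs (skel δ n y (p.2 (y, j)))) := by
    refine measurable_from_prod_countable_right fun k => ?_
    show Measurable (fun v : ℤ × ℕ → ℝ≥0 → ℤ => ∏ j ∈ range k, kill s xs (skel δ n y (v (y, j))))
    refine Finset.measurable_prod _ fun j _ => ?_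
    exact (Measurable.of_discrete (f := kill s xs)).comp
      ((measurable_skel δ n y).comp (measurable_pi_apply _))
  have h2 : Measurable (fun v : (ℤ → ℕ) × (ℤ × ℕ → ℝ≥0 → ℤ) =>
      ((v.1 y, v.2) : ℕ × (ℤ × ℕ → ℝ≥0 → ℤ))) := by fun_prop
  exact h1.comp h2

section Model

variable {Ω : Type*} [MeasurableSpace Ω] {P : Measure Ω} {κ ρ : ℝ} {ν : ℝ≥0}
  {X : ℝ≥0 → Ω → ℤ} {N : ℤ → Ω → ℕ} {Y : ℤ × ℕ → ℝ≥0 → Ω → ℤ}

lemma IsTrapModel.measurable_env (h : IsTrapModel P κ ρ ν X N Y) :
    Measurable (fun ω => ((fun y => N y ω), (fun i s => Y i s ω))) :=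
  (measurable_pi_lambda _ h.countMeasurable).prodMk
    (measurable_pi_lambda _ fun i => measurable_pi_lambda _ (h.trapWalk i).measurable)

lemma IsTrapModel.lintegral_discW (h : IsTrapModel P κ ρ ν X N Y) (hρ : 0 ≤ ρ) {s : ℝ≥0∞}
    (hs : s ≤ 1) (δ : ℝ≥0) (n : ℕ) (F : Finset ℤ) (xs : List ℤ) (hxs : xs.length = n) :
    ∫⁻ ω, discW s δ n F xs ((fun y => N y ω), (fun i s => Y i s ω)) ∂P
      = Wt ν (ρ * δ) s F xs := by
  have := h.isProb
  have hY : Measurable (fun ω i s => Y i s ω) :=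
    measurable_pi_lambda _ fun i => measurable_pi_lambda _ (h.trapWalk i).measurable
  rw [lintegral_indep (measurable_pi_lambda _ h.countMeasurable) hY h.indepCountsTraps
    (measurable_discW s δ n F xs)]
  have hmk : ∀ y, Measurable (fun x : ℝ≥0 → ℤ => kill s xs (skel δ n y x)) := fun y =>
    (Measurable.of_discrete (f := kill s xs)).comp (measurable_skel δ n y)
  have h1 : ∀ k : ℤ → ℕ, ∫⁻ ω', discW s δ n F xs (k, fun i s => Y i s ω') ∂P
      = ∏ y ∈ F, (T (ρ * δ) s xs (fun _ => 1) y) ^ k y := by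
    intro k
    simp only [discW]
    have hind : iIndepFun (fun (i : Σ _ : ℤ, ℕ) ω =>
        kill s xs (skel δ n i.1 (fun s => Y (i.1, i.2) s ω))) P := by
      have h2 := h.indepTraps.comp (fun i x => kill s xs (skel δ n i.1 x)) (fun i => hmk i.1)
      exact h2.precomp (g := fun i : Σ _ : ℤ, ℕ => (i.1, i.2))
        (Equiv.sigmaEquivProd ℤ ℕ).injective
    simp_rw [Finset.prod_sigma']
    rw [lintegral_prod_eq_prod_lintegral_of_indepFun _ _ hind
      (fun i => (hmk i.1).comp (measurable_pi_lambda _ (h.trapWalk _).measurable)),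
      Finset.prod_sigma]
    refine prod_congr rfl fun y _ => ?_
    simp only [(h.trapWalk _).lintegral_skel]
    rw [prod_const, card_range, ← EP_kill, hxs]
  simp_rw [h1]
  have hT : ∀ y, T (ρ * δ) s xs (fun _ => 1) y ≠ ∞ := fun y =>
    ne_top_of_le_ne_top ENNReal.one_ne_top (T_one_le_one (by positivity) hs xs y)
  rw [lintegral_prod_eq_prod_lintegral_of_indepFun F
    (fun y ω => (T (ρ * δ) s xs (fun _ => 1) y) ^ N y ω)
    (h.indepCounts.comp (fun y k => (T (ρ * δ) s xs (fun _ => 1) y) ^ k)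
      (fun y => Measurable.of_discrete))
    (fun y => (Measurable.of_discrete (f := fun k => (T (ρ * δ) s xs (fun _ => 1) y) ^ k)).comp
      (h.countMeasurable y))]
  exact prod_congr rfl fun y _ => lintegral_pow_poisson (h.countLaw y) (hT y)

lemma IsTrapModel.measurable_disc (h : IsTrapModel P κ ρ ν X N Y) (s : ℝ≥0∞) (δ : ℝ≥0) (n : ℕ)
    (F : Finset ℤ) (g : List ℤ → ℝ≥0∞) :
    Measurable (fun ω => g (skel δ n 0 (fun s => X s ω)) *
      discW s δ n F (skel δ n 0 (fun s => X s ω)) ((fun y => N y ω), (fun i s => Y i s ω))) := by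
  have hG : Measurable (fun p : List ℤ × ((ℤ → ℕ) × (ℤ × ℕ → ℝ≥0 → ℤ)) =>
      g p.1 * discW s δ n F p.1 p.2) :=
    measurable_from_prod_countable_right fun xs => (measurable_discW s δ n F xs).const_mul (g xs)
  exact hG.comp (((measurable_skel δ n 0).comp
    (measurable_pi_lambda _ h.walk.measurable)).prodMk h.measurable_env)

lemma IsTrapModel.reduce (h : IsTrapModel P κ ρ ν X N Y) (hρ : 0 ≤ ρ) {s : ℝ≥0∞}
    (hs : s ≤ 1) (δ : ℝ≥0) (n : ℕ) (F : Finset ℤ) (g : List ℤ → ℝ≥0∞) :
    ∫⁻ ω, g (skel δ n 0 (fun s => X s ω)) *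
      discW s δ n F (skel δ n 0 (fun s => X s ω)) ((fun y => N y ω), (fun i s => Y i s ω)) ∂P
      = EP (κ * δ) n 0 (fun xs => g xs * Wt ν (ρ * δ) s F xs) := by
  have := h.isProb
  have hG : Measurable (fun p : List ℤ × ((ℤ → ℕ) × (ℤ × ℕ → ℝ≥0 → ℤ)) =>
      g p.1 * discW s δ n F p.1 p.2) :=
    measurable_from_prod_countable_right fun xs => (measurable_discW s δ n F xs).const_mul (g xs)
  have h1 := lintegral_indep ((measurable_skel δ n 0).comp
    (measurable_pi_lambda _ h.walk.measurable)) h.measurable_env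
    (h.indepWalk.comp (measurable_skel δ n 0) measurable_id) hG
  simp only [Function.comp_apply] at h1
  rw [h1, ← h.walk.lintegral_skel]
  congr 1; ext ω
  rw [← h.lintegral_discW hρ hs δ n F _ (skel_length _ _ _ _)]
  exact lintegral_const_mul _ ((measurable_discW s δ n F _).comp h.measurable_env)

end Model

end Pool.Agent.Lib.MP_e5e566_pr
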