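import Pool.Agent.Lib.MP_e5e566_pr.Main

/-!
The annealed measure is a probability measure, the rescaled range is measurable, and its laws have
no weak limit.
-/

open MeasureTheory ProbabilityTheory Finset Filter Topology
open scoped ENNReal NNReal

set_option maxHeartbeats 400000

namespace Pool.Agent.Lib.MP_e5e566_pr

lemma one_le_Wt {ν l S : ℝ} (hν : 0 ≤ ν) (hl : 0 ≤ l) (hS : 1 ≤ S) {s : ℝ≥0∞} (hs : s ≤ 1)
    (F : Finset ℤ) {xs : List ℤ} (hxs : Bd S xs) (hlen : xs.length * l ≤ S ^ 2) :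
    1 ≤ ENNReal.ofReal (Real.exp (ν * (54 * S * (9 * S)))) * Wt ν l s F xs := by
  have hS0 : 0 < S := by linarith
  have h0 : Wt ν l s F [] = 1 := by simp [Wt, T]
  rw [← h0]
  refine Wt_le hν hl hs F (e := fun y => 1 * ENNReal.ofReal (54 * S) * Q (xs.length * l) (ind4 S) y)
    (by positivity) (fun y => ?_) ?_
  · have h1 := Q_le_T_add hl hS0 s 1 (f := fun _ => 1) (fun w => by
      unfold psi
      rw [one_mul, ← ENNReal.ofReal_one]
      exact ENNReal.ofReal_le_ofReal (by linarith [abs_nonneg (w : ℝ)])) xs hxs hlen y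
    rwa [Q_const (by positivity)] at h1
  · rw [ENNReal.tsum_mul_left, one_mul, ENNReal.ofReal_mul (p := 54 * S) (q := 9 * S) (by positivity)]
    gcongr
    have h1 := Q_adj (l := xs.length * l) (by positivity) (fun _ => 1) (ind4 S)
    simp only [one_mul, Q_const (by positivity : 0 ≤ xs.length * l)] at h1
    rw [h1]
    exact tsum_ind4_le hS

lemma le_B_zero {l : ℝ} (hl : 0 ≤ l) (n : ℕ) :
    ENNReal.ofReal (Real.exp (-(n * l))) ≤ B l 0 n (fun _ => 1) 0 := by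
  induction n with
  | zero => simp [B]
  | succ n ih =>
    have h1 : ENNReal.ofReal (Real.exp (-l)) ≤ q l 0 := by
      rw [q_eq hl]
      refine le_trans (le_of_eq ?_) (ENNReal.le_tsum 0)
      simp [pois, srwProb]
    have e : -(((n + 1 : ℕ) : ℝ) * l) = -l + -(n * l) := by push_cast; ring
    rw [e, Real.exp_add, ENNReal.ofReal_mul (Real.exp_pos _).le, B, Q]
    refine le_trans ?_ (ENNReal.le_tsum 0)
    rw [add_zero, ind_pos (by simp), one_mul]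
    gcongr

section Model

variable {Ω : Type*} [MeasurableSpace Ω] {P : Measure Ω} {κ ρ : ℝ} {ν : ℝ≥0}
  {X : ℝ≥0 → Ω → ℤ} {N : ℤ → Ω → ℕ} {Y : ℤ × ℕ → ℝ≥0 → Ω → ℤ}

lemma IsTrapModel.partition_pos (h : IsTrapModel P κ ρ ν X N Y) (hκ : 0 ≤ κ) (hρ : 0 ≤ ρ)
    (γ : ℝ≥0∞) {t : ℝ≥0} (ht : 0 < t) : ∫⁻ ω, survivalWeight γ X N Y t ω ∂P ≠ 0 := by
  set S : ℝ := 1 + ρ * t with hS
  have hρt : 0 ≤ ρ * t := by positivity
  have hS1 : 1 ≤ S := by linarith
  set E := ENNReal.ofReal (Real.exp (ν * (54 * S * (9 * S)))) with hE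
  have hEtop : E ≠ ∞ := ENNReal.ofReal_ne_top
  have h1 : ∀ F : Finset ℤ, ENNReal.ofReal (Real.exp (-(κ * t)))
      ≤ E * ∫⁻ ω in Set.univ, truncW γ X N Y t F ω ∂P := by
    intro F
    refine ge_of_tendsto
      (ENNReal.Tendsto.const_mul (h.tendsto_disc γ ht F Set.univ) (Or.inr hEtop)) ?_
    filter_upwards [eventually_gt_atTop 0] with n hn
    have hn0 : (0 : ℝ) < n := by exact_mod_cast hn
    have hδr : ((t / n : ℝ≥0) : ℝ) = t / n := by push_cast; rfl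
    rw [Measure.restrict_univ]
    have h2 := h.reduce hρ (ex_le_one (γ * (t / n : ℝ≥0))) (t / n) n F (fun _ => 1)
    simp only [one_mul] at h2
    rw [h2, ← EP_const_mul]
    have h3 := le_B_zero (l := κ * (t / n : ℝ≥0)) (by positivity) n
    have e : (n : ℝ) * (κ * (t / n : ℝ≥0)) = κ * t := by rw [hδr]; field_simp
    rw [e, ← EP_B] at h3
    refine h3.trans (EP_mono _ _ _ fun xs hxs => ?_)
    by_cases hb : Bd 0 xs
    · rw [ind_pos hb, one_mul]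
      refine one_le_Wt ν.2 (by positivity) hS1 (ex_le_one _) F (hb.mono (by linarith)) ?_
      have e2 : (xs.length : ℝ) * (ρ * (t / n : ℝ≥0)) = ρ * t := by rw [hδr, hxs]; field_simp
      rw [e2]
      nlinarith
    · rw [ind_neg hb, zero_mul]; exact zero_le
  have h2 : ENNReal.ofReal (Real.exp (-(κ * t)))
      ≤ E * ∫⁻ ω in Set.univ, survivalWeight γ X N Y t ω ∂P :=
    ge_of_tendsto' (ENNReal.Tendsto.const_mul (h.tendsto_trunc γ ht Set.univ) (Or.inr hEtop)) h1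
  rw [Measure.restrict_univ] at h2
  intro h0
  rw [h0, mul_zero, nonpos_iff_eq_zero, ENNReal.ofReal_eq_zero] at h2
  linarith [Real.exp_pos (-(κ * t))]

omit [MeasurableSpace Ω] in
lemma survivalWeight_le_one (γ : ℝ≥0∞) (t : ℝ≥0) (ω : Ω) : survivalWeight γ X N Y t ω ≤ 1 := by
  unfold survivalWeight
  split_ifs
  · exact le_rfl
  · exact zero_le
  · exact ex_le_one _

theorem IsTrapModel.isProbabilityMeasure_annealed (h : IsTrapModel P κ ρ ν X N Y) (hκ : 0 ≤ κ)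
    (hρ : 0 ≤ ρ) (γ : ℝ≥0∞) {t : ℝ≥0} (ht : 0 < t) :
    IsProbabilityMeasure (annealed P γ X N Y t) := by
  have := h.isProb
  constructor
  rw [annealed, Measure.smul_apply, withDensity_apply _ MeasurableSet.univ, Measure.restrict_univ,
    smul_eq_mul]
  refine ENNReal.inv_mul_cancel (h.partition_pos hκ hρ γ ht)
    (ne_top_of_le_ne_top ENNReal.one_ne_top ?_)
  calc ∫⁻ ω, survivalWeight γ X N Y t ω ∂P ≤ ∫⁻ _, 1 ∂P :=
        lintegral_mono fun ω => survivalWeight_le_one γ t ω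
    _ = 1 := by simp

lemma IsWalk.range_eq {r : ℝ} (h : IsWalk P r X) {t : ℝ≥0} (ht : 0 < t) (ω : Ω) :
    Set.range (fun s : Set.Icc (0 : ℝ≥0) t => (X s ω : ℝ))
      = Set.range (fun p : ℕ × ℕ => (X (min t ((p.2 : ℝ≥0) * (t / p.1))) ω : ℝ)) := by
  ext v
  constructor
  · rintro ⟨s, rfl⟩
    obtain ⟨n, h1, hn⟩ := (((tendsto_gp ht s).eventually
      (eventually_eq_of_rightCont (h.rightCont ω s))).and (eventually_gt_atTop 0)).exists
    refine ⟨(n, ⌈(s : ℝ≥0) / (t / n)⌉₊), ?_⟩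
    have hn' : (0 : ℝ≥0) < n := by exact_mod_cast hn
    have hδ : 0 < t / n := by positivity
    have h3 : ⌈(s : ℝ≥0) / (t / n)⌉₊ ≤ n := by
      rw [Nat.ceil_le, div_le_iff₀ hδ, mul_div_cancel₀ _ hn'.ne']
      exact s.2.2
    have h4 : ((⌈(s : ℝ≥0) / (t / n)⌉₊ : ℕ) : ℝ≥0) * (t / n) ≤ t := by
      rw [mul_div_assoc', div_le_iff₀ hn', mul_comm]
      gcongr
    simp only [min_eq_right h4]
    exact congrArg _ h1
  · rintro ⟨p, rfl⟩
    exact ⟨⟨_, zero_le, min_le_left _ _⟩, rfl⟩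

lemma IsWalk.measurable_rescaledRange {r : ℝ} (h : IsWalk P r X) {t : ℝ≥0} (ht : 0 < t) :
    Measurable (rescaledRange X t) := by
  have hm : ∀ p : ℕ × ℕ, Measurable fun ω => (X (min t ((p.2 : ℝ≥0) * (t / p.1))) ω : ℝ) :=
    fun p => (Measurable.of_discrete (f := fun k : ℤ => (k : ℝ))).comp (h.measurable _)
  have h1 : Measurable fun ω => ⨅ s : Set.Icc (0 : ℝ≥0) t, (X s ω : ℝ) := by
    have := Measurable.iInf hm
    convert this using 1
    ext ω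
    rw [iInf, iInf, h.range_eq ht ω]
  have h2 : Measurable fun ω => ⨆ s : Set.Icc (0 : ℝ≥0) t, (X s ω : ℝ) := by
    have := Measurable.iSup hm
    convert this using 1
    ext ω
    rw [iSup, iSup, h.range_eq ht ω]
  exact (h1.const_mul _).prodMk (h2.const_mul _)

lemma IsWalk.exists_bound {r : ℝ} (h : IsWalk P r X) (t : ℝ≥0) (ω : Ω) :
    ∃ M : ℝ, ∀ s ≤ t, |(X s ω : ℝ)| ≤ M := by
  have key := (isCompact_Icc (a := (0 : ℝ≥0)) (b := t)).induction_on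
    (p := fun U => ∃ M : ℝ, ∀ s ∈ U, |(X s ω : ℝ)| ≤ M) ⟨0, by simp⟩
    (fun U V hUV ⟨M, hM⟩ => ⟨M, fun s hs => hM s (hUV hs)⟩)
    (fun U V ⟨M, hM⟩ ⟨M', hM'⟩ => ⟨max M M', fun s hs =>
      hs.elim (fun h1 => (hM s h1).trans (le_max_left _ _))
        (fun h1 => (hM' s h1).trans (le_max_right _ _))⟩) ?_
  · obtain ⟨M, hM⟩ := key
    exact ⟨M, fun s hs => hM s ⟨zero_le, hs⟩⟩
  · intro s _
    obtain ⟨v, hv⟩ := h.leftLim ω s
    rw [nhds_discrete, tendsto_pure] at hv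
    have h1 := eventually_eq_of_rightCont (h.rightCont ω s)
    have h2 : ∀ᶠ u in 𝓝 s, |(X u ω : ℝ)| ≤ max |(v : ℝ)| |(X s ω : ℝ)| := by
      rw [← nhdsLT_sup_nhdsGE, eventually_sup]
      exact ⟨hv.mono fun u hu => by rw [hu]; exact le_max_left _ _,
        h1.mono fun u hu => by rw [hu]; exact le_max_right _ _⟩
    exact ⟨_, mem_nhdsWithin_of_mem_nhds h2, _, fun u hu => hu⟩

lemma IsWalk.abs_le_of_rescaledRange {r : ℝ} (h : IsWalk P r X) {t : ℝ≥0} (ht : 0 < t) {ω : Ω}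
    {b : ℝ} (hb : rescaledRange X t ω ∈ Metric.ball (0 : ℝ × ℝ) b) :
    ∀ s ≤ t, |(X s ω : ℝ)| ≤ b * (t : ℝ) ^ (1 / 3 : ℝ) := by
  intro s hs
  obtain ⟨M, hM⟩ := h.exists_bound t ω
  have ht' : (0 : ℝ) < t := ht
  have hp : 0 < (t : ℝ) ^ (1 / 3 : ℝ) := by positivity
  rw [mem_ball_zero_iff, Prod.norm_def, max_lt_iff] at hb
  simp only [rescaledRange, Real.rpow_neg ht'.le, Real.norm_eq_abs, abs_lt] at hb
  obtain ⟨⟨h1, -⟩, -, h2⟩ := hb
  rw [inv_mul_lt_iff₀ hp] at h2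
  rw [lt_inv_mul_iff₀ hp] at h1
  have h3 : ⨅ s : Set.Icc (0 : ℝ≥0) t, (X s ω : ℝ) ≤ X s ω :=
    ciInf_le (f := fun s : Set.Icc (0 : ℝ≥0) t => (X s ω : ℝ))
      ⟨-M, by rintro _ ⟨u, rfl⟩; exact (abs_le.1 (hM u u.2.2)).1⟩ ⟨s, zero_le, hs⟩
  have h4 : (X s ω : ℝ) ≤ ⨆ s : Set.Icc (0 : ℝ≥0) t, (X s ω : ℝ) :=
    le_ciSup (f := fun s : Set.Icc (0 : ℝ≥0) t => (X s ω : ℝ))
      ⟨M, by rintro _ ⟨u, rfl⟩; exact (abs_le.1 (hM u u.2.2)).2⟩ ⟨s, zero_le, hs⟩
  rw [abs_le]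
  constructor <;> nlinarith

theorem IsTrapModel.tendsto_scale (h : IsTrapModel P κ ρ ν X N Y) (hκ : 0 < κ) (hρ : 0 < ρ)
    {γ : ℝ≥0∞} (hγ : γ ≠ 0) (b : ℝ) :
    Tendsto (fun t : ℝ≥0 => annealed P γ X N Y t
      {ω | ∀ s ≤ t, |(X s ω : ℝ)| ≤ b * (t : ℝ) ^ (1 / 3 : ℝ)}) atTop (𝓝 0) := by
  obtain ⟨c, hc, h1⟩ := exists_const ν hκ hρ hγ
  refine tendsto_of_tendsto_of_tendsto_of_le_of_le' tendsto_const_nhds (h1 h)
    (Eventually.of_forall fun _ => zero_le) ?_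
  have hco : Tendsto (fun t : ℝ≥0 => (t : ℝ)) atTop atTop := NNReal.tendsto_coe_atTop.2 tendsto_id
  have h2 : Tendsto (fun t : ℝ≥0 => (Real.log t) ^ (1 / 3 : ℝ)) atTop atTop :=
    (tendsto_rpow_atTop (by norm_num)).comp (Real.tendsto_log_atTop.comp hco)
  filter_upwards [h2.eventually_ge_atTop (b / c), hco.eventually_ge_atTop 1] with t h3 h4
  refine measure_mono fun ω hω s hs => (hω s hs).trans ?_
  rw [Real.mul_rpow (by positivity) (Real.log_nonneg h4), mul_comm ((t : ℝ) ^ (1 / 3 : ℝ)),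
    ← mul_assoc]
  rw [div_le_iff₀ hc] at h3
  gcongr
  linarith

theorem IsTrapModel.no_weak_limit (h : IsTrapModel P κ ρ ν X N Y) (hκ : 0 < κ) (hρ : 0 < ρ)
    {γ : ℝ≥0∞} (hγ : γ ≠ 0) :
    ∃ μ : ℝ≥0 → ProbabilityMeasure (ℝ × ℝ),
      (∀ t, 0 < t → (μ t : Measure (ℝ × ℝ)) = (annealed P γ X N Y t).map (rescaledRange X t)) ∧
      ∀ μ₀ : ProbabilityMeasure (ℝ × ℝ), ¬ Tendsto μ atTop (𝓝 μ₀) := by
  have hp : ∀ t : ℝ≥0, 0 < t →
      IsProbabilityMeasure ((annealed P γ X N Y t).map (rescaledRange X t)) := by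
    intro t ht
    have := h.isProbabilityMeasure_annealed hκ.le hρ.le γ ht
    exact Measure.isProbabilityMeasure_map (h.walk.measurable_rescaledRange ht).aemeasurable
  refine ⟨fun t => if ht : 0 < t then ⟨_, hp t ht⟩ else ⟨Measure.dirac 0, inferInstance⟩,
    fun t ht => by simp [ht], fun μ₀ hμ => ?_⟩
  obtain ⟨n, hn⟩ : ∃ n : ℕ, (μ₀ : Measure (ℝ × ℝ)) (Metric.ball 0 n) ≠ 0 := by
    by_contra h0
    push Not at h0
    have h1 := measure_iUnion_null h0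
    rw [Metric.iUnion_ball_nat, measure_univ] at h1
    exact one_ne_zero h1
  have h1 := ProbabilityMeasure.le_liminf_measure_open_of_tendsto hμ
    (Metric.isOpen_ball (x := (0 : ℝ × ℝ)) (ε := n))
  have h2 : Tendsto (fun t : ℝ≥0 => ((if ht : 0 < t then ⟨_, hp t ht⟩
      else ⟨Measure.dirac 0, inferInstance⟩ : ProbabilityMeasure (ℝ × ℝ)) : Measure (ℝ × ℝ))
      (Metric.ball 0 n)) atTop (𝓝 0) := by
    refine tendsto_of_tendsto_of_tendsto_of_le_of_le' tendsto_const_nhds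
      (h.tendsto_scale hκ hρ hγ n) (Eventually.of_forall fun _ => zero_le) ?_
    filter_upwards [eventually_gt_atTop 0] with t ht
    rw [dif_pos ht, ProbabilityMeasure.coe_mk,
      Measure.map_apply (h.walk.measurable_rescaledRange ht) measurableSet_ball]
    exact measure_mono fun ω hω => h.walk.abs_le_of_rescaledRange ht hω
  rw [h2.liminf_eq] at h1
  exact hn (nonpos_iff_eq_zero.1 h1)

end Model

end Pool.Agent.Lib.MP_e5e566_pr
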