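import Pool.Agent.Lib.MP_e5e566_pr.Ops

/-!
A single trap and a fixed discrete path: the killed transition operators, the survival bound which
is uniform over bounded paths, and the cost of changing the path inside a window.
-/

open Finset
open scoped ENNReal NNReal

namespace Pool.Agent.Lib.MP_e5e566_pr

/-- killed evolution along the list of positions of the walk -/
noncomputable def T (l : ℝ) (s : ℝ≥0∞) : List ℤ → (ℤ → ℝ≥0∞) → ℤ → ℝ≥0∞
  | [], f => f
  | x :: xs, f => Q l (fun z => (if z = x then s else 1) * T l s xs f z)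

lemma T_append (l : ℝ) (s : ℝ≥0∞) (xs ys : List ℤ) (f : ℤ → ℝ≥0∞) :
    T l s (xs ++ ys) f = T l s xs (T l s ys f) := by
  induction xs with
  | nil => rfl
  | cons x xs ih => simp only [List.cons_append, T, ih]

lemma T_mono (l : ℝ) (s : ℝ≥0∞) (xs : List ℤ) {f g : ℤ → ℝ≥0∞} (h : ∀ z, f z ≤ g z) (z : ℤ) :
    T l s xs f z ≤ T l s xs g z := by
  induction xs generalizing z with
  | nil => exact h z
  | cons x xs ih => exact Q_mono l (fun w => by gcongr; exact ih w) z

lemma T_add (l : ℝ) (s : ℝ≥0∞) (xs : List ℤ) (f g : ℤ → ℝ≥0∞) (z : ℤ) :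
    T l s xs (fun w => f w + g w) z = T l s xs f z + T l s xs g z := by
  induction xs generalizing z with
  | nil => rfl
  | cons x xs ih =>
    simp only [T, ih, mul_add]
    exact Q_add l _ _ z

lemma T_le_Q {l : ℝ} (hl : 0 ≤ l) {s : ℝ≥0∞} (hs : s ≤ 1) (xs : List ℤ) (f : ℤ → ℝ≥0∞) (z : ℤ) :
    T l s xs f z ≤ Q (xs.length * l) f z := by
  induction xs generalizing z with
  | nil => simp [T, Q_zero]
  | cons x xs ih =>
    have e : (((x :: xs).length : ℕ) : ℝ) * l = l + xs.length * l := by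
      simp only [List.length_cons]; push_cast; ring
    rw [e, ← Q_Q hl (by positivity)]
    refine Q_mono l (fun w => ?_) z
    calc (if w = x then s else 1) * T l s xs f w ≤ 1 * Q (xs.length * l) f w := by
          gcongr
          · split_ifs
            · exact hs
            · exact le_rfl
          · exact ih w
      _ = _ := one_mul _

lemma T_one_le_one {l : ℝ} (hl : 0 ≤ l) {s : ℝ≥0∞} (hs : s ≤ 1) (xs : List ℤ) (z : ℤ) :
    T l s xs (fun _ => 1) z ≤ 1 :=
  (T_le_Q hl hs xs _ z).trans (Q_const (by positivity) 1 z).le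

lemma T_adj {l : ℝ} (hl : 0 ≤ l) (s : ℝ≥0∞) (xs : List ℤ) (g h : ℤ → ℝ≥0∞) :
    ∑' z, g z * T l s xs (Q l h) z = ∑' z, T l s xs.reverse (Q l g) z * h z := by
  induction xs generalizing g with
  | nil => exact Q_adj hl g h
  | cons x xs ih =>
    simp only [T, List.reverse_cons, T_append]
    rw [Q_adj hl, ← ih (fun z => (if z = x then s else 1) * Q l g z)]
    congr 1; ext z; ring

/-- expected number of coincidences -/
noncomputable def occ (l : ℝ) : List ℤ → ℤ → ℝ≥0∞
  | [] => fun _ => 0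
  | x :: xs => Q l (fun z => (if z = x then 1 else 0) + occ l xs z)

lemma Q_sum (l : ℝ) (n : ℕ) (f : ℕ → ℤ → ℝ≥0∞) (z : ℤ) :
    Q l (fun w => ∑ i ∈ range n, f i w) z = ∑ i ∈ range n, Q l (f i) z := by
  induction n with
  | zero => simp [Q]
  | succ n ih => simp_rw [sum_range_succ]; rw [Q_add, ih]

lemma occ_eq {l : ℝ} (hl : 0 ≤ l) (xs : List ℤ) (z : ℤ) :
    occ l xs z = ∑ i ∈ range xs.length, q ((i + 1) * l) (xs.getD i 0 - z) := by
  induction xs generalizing z with
  | nil => simp [occ]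
  | cons x xs ih =>
    simp only [occ, List.length_cons, sum_range_succ', List.getD_cons_succ, List.getD_cons_zero]
    rw [Q_add, Q_single, add_comm]
    simp_rw [funext ih]
    rw [Q_sum]
    congr 1
    · refine sum_congr rfl fun i _ => ?_
      rw [Q_q hl (by positivity)]
      congr 1; push_cast; ring
    · simp

lemma occ_le {l : ℝ} (hl : 0 ≤ l) (xs : List ℤ) (z : ℤ) {n : ℕ} (hn : xs.length ≤ n) :
    occ l xs z ≤ ∑ i ∈ range n, q ((i + 1) * l) 0 := by
  rw [occ_eq hl]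
  calc ∑ i ∈ range xs.length, q ((i + 1) * l) (xs.getD i 0 - z)
      ≤ ∑ i ∈ range xs.length, q ((i + 1) * l) 0 :=
        sum_le_sum fun i _ => ENNReal.ofReal_le_ofReal (ctrwProb_le_zero (by positivity) _)
    _ ≤ _ := sum_le_sum_of_subset (range_mono hn)

lemma occ_add_T_le {l : ℝ} (hl : 0 ≤ l) {s θ : ℝ≥0∞} (hsθ : s + θ = 1) {n : ℕ} (xs : List ℤ)
    (hn : xs.length ≤ n) (z : ℤ) :
    θ * occ l xs z + (1 + θ * ∑ i ∈ range n, q ((i + 1) * l) 0) * T l s xs (fun _ => 1) z
      ≤ 1 + θ * ∑ i ∈ range n, q ((i + 1) * l) 0 := by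
  set A := ∑ i ∈ range n, q ((i + 1) * l) 0 with hA
  induction xs generalizing z with
  | nil => simp [occ, T]
  | cons x xs ih =>
    have hn' : xs.length ≤ n := by simp only [List.length_cons] at hn; omega
    simp only [occ, T]
    rw [← Q_const_mul, ← Q_const_mul, ← Q_add]
    refine le_trans (Q_mono l (fun w => ?_) z) (Q_const hl (1 + θ * A) z).le
    have h1 := ih hn' w
    have h2 : occ l xs w ≤ A := occ_le hl xs w hn'
    split_ifs with h
    · calc θ * (1 + occ l xs w) + (1 + θ * A) * (s * T l s xs (fun _ => 1) w)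
          = θ + (s + θ) * (θ * occ l xs w) + (1 + θ * A) * (s * T l s xs (fun _ => 1) w) := by
            rw [hsθ]; ring
        _ = θ * (1 + θ * occ l xs w) +
            s * (θ * occ l xs w + (1 + θ * A) * T l s xs (fun _ => 1) w) := by ring
        _ ≤ θ * (1 + θ * A) + s * (1 + θ * A) := by gcongr
        _ = (s + θ) * (1 + θ * A) := by ring
        _ = 1 + θ * A := by rw [hsθ, one_mul]
    · simpa using h1

/-- survival bound, uniform over bounded paths -/
lemma T_one_le {l Γ τ S : ℝ} (hl : 0 < l) (hS : 0 < S) (hΓ : 0 ≤ Γ) (hτ : 1 ≤ τ) {s θ : ℝ≥0∞}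
    (hsθ : s + θ = 1) (hθ : ENNReal.ofReal l ≤ ENNReal.ofReal Γ * θ) (xs : List ℤ)
    (hxs : ∀ x ∈ xs, |(x : ℝ)| ≤ S) (hlen : τ ≤ xs.length * l) (z : ℤ) :
    T l s xs (fun _ => 1) z ≤ ENNReal.ofReal (8 / √τ) * ENNReal.ofReal (Γ + 9 * S + 9 * |(z : ℝ)|) := by
  set n := xs.length with hn
  set A := ∑ i ∈ range n, q ((i + 1) * l) 0 with hA
  set a := T l s xs (fun _ => 1) z with ha
  set G := occ l xs z with hG
  have h1 : θ * G + (1 + θ * A) * a ≤ 1 + θ * A := occ_add_T_le hl.le hsθ xs le_rfl z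
  have hθ1 : θ ≤ 1 := by rw [← hsθ]; exact le_add_self
  have hθtop : θ ≠ ∞ := ne_top_of_le_ne_top ENNReal.one_ne_top hθ1
  have hθ0 : θ ≠ 0 := by
    rintro rfl
    rw [mul_zero, nonpos_iff_eq_zero, ENNReal.ofReal_eq_zero] at hθ
    linarith
  have hD : 0 < S + |(z : ℝ)| := by positivity
  have h2 : ENNReal.ofReal l * A ≤ ENNReal.ofReal l * G + ENNReal.ofReal (9 * (S + |(z : ℝ)|)) := by
    have h3 := sum_ctrwProb_sub_le hl.le hD n (fun i => xs.getD i 0 - z) (fun i hi => by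
      have hm : xs.getD i 0 ∈ xs := by
        rw [List.getD_eq_getElem _ _ hi]; exact List.getElem_mem _
      have := hxs _ hm
      push_cast
      exact (abs_sub _ _).trans (by gcongr))
    rw [hG, occ_eq hl.le, hA]
    unfold q
    rw [← ENNReal.ofReal_sum_of_nonneg (fun i _ => ctrwProb_nonneg (by positivity) _),
      ← ENNReal.ofReal_sum_of_nonneg (fun i _ => ctrwProb_nonneg (by positivity) _),
      ← ENNReal.ofReal_mul hl.le, ← ENNReal.ofReal_mul hl.le, ← ENNReal.ofReal_add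
        (mul_nonneg hl.le (sum_nonneg fun i _ => ctrwProb_nonneg (by positivity) _))
        (by positivity)]
    refine ENNReal.ofReal_le_ofReal ?_
    simp_rw [mul_sub] at h3
    rw [sum_sub_distrib, ← mul_sum, ← mul_sum] at h3
    linarith
  have hGtop : G ≠ ∞ := by
    rw [hG, occ_eq hl.le]
    exact ENNReal.sum_ne_top.2 fun i _ => ENNReal.ofReal_ne_top
  have h4 : θ * (ENNReal.ofReal l * A * a)
      ≤ θ * (ENNReal.ofReal Γ + ENNReal.ofReal (9 * (S + |(z : ℝ)|))) := by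
    have hfin : ENNReal.ofReal l * (θ * G) ≠ ∞ :=
      ENNReal.mul_ne_top ENNReal.ofReal_ne_top (ENNReal.mul_ne_top hθtop hGtop)
    rw [← ENNReal.add_le_add_iff_left hfin]
    calc ENNReal.ofReal l * (θ * G) + θ * (ENNReal.ofReal l * A * a)
        = ENNReal.ofReal l * (θ * G + (θ * A) * a) := by ring
      _ ≤ ENNReal.ofReal l * (θ * G + (1 + θ * A) * a) := by gcongr; exact le_add_self
      _ ≤ ENNReal.ofReal l * (1 + θ * A) := by gcongr
      _ = ENNReal.ofReal l + θ * (ENNReal.ofReal l * A) := by ring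
      _ ≤ ENNReal.ofReal Γ * θ +
          θ * (ENNReal.ofReal l * G + ENNReal.ofReal (9 * (S + |(z : ℝ)|))) := by gcongr
      _ = _ := by ring
  rw [ENNReal.mul_le_mul_iff_right hθ0 hθtop] at h4
  have hτ0 : 0 < τ := by linarith
  have hsq : 0 < √τ := Real.sqrt_pos.2 hτ0
  have h5 : ENNReal.ofReal (√τ / 8) ≤ ENNReal.ofReal l * A := by
    rw [hA]
    unfold q
    rw [← ENNReal.ofReal_sum_of_nonneg (fun i _ => ctrwProb_nonneg (by positivity) _),
      ← ENNReal.ofReal_mul hl.le]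
    refine ENNReal.ofReal_le_ofReal ?_
    have hnl : 1 ≤ n * l := hτ.trans hlen
    have hsq2 : 0 < √(n * l) := Real.sqrt_pos.2 (by linarith)
    have h6 : ∀ i ∈ range n, 1 / (8 * √(n * l)) ≤ ctrwProb ((i + 1) * l) 0 := by
      intro i hi
      refine (le_ctrwProb_zero hnl).trans (ctrwProb_zero_anti (by positivity) ?_)
      have : (i : ℝ) + 1 ≤ n := by exact_mod_cast mem_range.1 hi
      gcongr
    have h7 := card_nsmul_le_sum _ _ _ h6
    rw [card_range, nsmul_eq_mul] at h7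
    calc √τ / 8 ≤ √(n * l) / 8 := by gcongr
      _ = l * (n * (1 / (8 * √(n * l)))) := by
          field_simp
          rw [Real.sq_sqrt (by positivity)]
      _ ≤ _ := by gcongr
  have h8 : ENNReal.ofReal (8 / √τ) * ENNReal.ofReal (√τ / 8) = 1 := by
    rw [← ENNReal.ofReal_mul (by positivity)]
    have : 8 / √τ * (√τ / 8) = 1 := by field_simp
    rw [this, ENNReal.ofReal_one]
  calc a = ENNReal.ofReal (8 / √τ) * (ENNReal.ofReal (√τ / 8) * a) := by
        rw [← mul_assoc, h8, one_mul]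
    _ ≤ ENNReal.ofReal (8 / √τ) * (ENNReal.ofReal l * A * a) := by gcongr
    _ ≤ ENNReal.ofReal (8 / √τ) * (ENNReal.ofReal Γ + ENNReal.ofReal (9 * (S + |(z : ℝ)|))) := by
        gcongr
    _ = _ := by
        rw [← ENNReal.ofReal_add hΓ (by positivity)]
        congr 2; ring

/-- the linear envelope -/
noncomputable def psi (S : ℝ) (w : ℤ) : ℝ≥0∞ := ENNReal.ofReal (10 * S + 9 * |(w : ℝ)|)

/-- indicator of the interval of radius `4 S` -/
noncomputable def ind4 (S : ℝ) (w : ℤ) : ℝ≥0∞ := if |(w : ℝ)| ≤ 4 * S then 1 else 0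

lemma Q_psi_le_ind {S r : ℝ} (hS : 0 < S) (hr : 0 ≤ r) (hrS : r ≤ S ^ 2) {v : ℤ}
    (hv : |(v : ℝ)| ≤ S) : Q r (psi S) v ≤ ENNReal.ofReal (54 * S) * Q r (ind4 S) v := by
  have h1 : ∀ w : ℤ, psi S w + ENNReal.ofReal (8 * S) ≤ ENNReal.ofReal (54 * S) * ind4 S w +
      ENNReal.ofReal (4 / S) * ENNReal.ofReal ((w : ℝ) ^ 2) := by
    intro w
    unfold psi ind4
    rw [← ENNReal.ofReal_add (by positivity) (by positivity)]
    split_ifs with h
    · rw [mul_one]
      exact le_add_right (ENNReal.ofReal_le_ofReal (by linarith))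
    · rw [mul_zero, zero_add, ← ENNReal.ofReal_mul (by positivity)]
      refine ENNReal.ofReal_le_ofReal ?_
      rw [div_mul_eq_mul_div, le_div_iff₀ hS, ← sq_abs]
      push Not at h
      nlinarith
  have h2 := Q_mono r h1 v
  rw [Q_add, Q_add, Q_const hr, Q_const_mul, Q_const_mul, Q_sq hr,
    ← ENNReal.ofReal_mul (by positivity : 0 ≤ 4 / S)] at h2
  have h3 : ENNReal.ofReal (4 / S * ((v : ℝ) ^ 2 + r)) ≤ ENNReal.ofReal (8 * S) := by
    refine ENNReal.ofReal_le_ofReal ?_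
    rw [div_mul_eq_mul_div, div_le_iff₀ hS, ← sq_abs]
    have : |(v : ℝ)| ^ 2 ≤ S ^ 2 := by gcongr
    nlinarith
  exact (ENNReal.add_le_add_iff_right ENNReal.ofReal_ne_top).1 (h2.trans (by gcongr))

lemma Q_psi_le {S r : ℝ} (hS : 0 < S) (hr : 0 ≤ r) (hrS : r ≤ S ^ 2) {v : ℤ}
    (hv : |(v : ℝ)| ≤ 4 * S) : Q r (psi S) v ≤ ENNReal.ofReal (70 * S) := by
  have h1 : ∀ w : ℤ, psi S w ≤ ENNReal.ofReal (19 * S) +
      ENNReal.ofReal (3 / S) * ENNReal.ofReal ((w : ℝ) ^ 2) := by
    intro w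
    unfold psi
    rw [← ENNReal.ofReal_mul (by positivity), ← ENNReal.ofReal_add (by positivity) (by positivity)]
    refine ENNReal.ofReal_le_ofReal ?_
    have : 9 * |(w : ℝ)| - 9 * S ≤ 3 / S * (w : ℝ) ^ 2 := by
      rw [div_mul_eq_mul_div, le_div_iff₀ hS, ← sq_abs]
      nlinarith [sq_nonneg (|(w : ℝ)| - 3 / 2 * S)]
    linarith
  have h2 := Q_mono r h1 v
  rw [Q_add, Q_const hr, Q_const_mul, Q_sq hr,
    ← ENNReal.ofReal_mul (by positivity : 0 ≤ 3 / S),
    ← ENNReal.ofReal_add (by positivity) (by positivity)] at h2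
  refine h2.trans (ENNReal.ofReal_le_ofReal ?_)
  have : 3 / S * ((v : ℝ) ^ 2 + r) ≤ 51 * S := by
    rw [div_mul_eq_mul_div, div_le_iff₀ hS, ← sq_abs]
    have : |(v : ℝ)| ^ 2 ≤ (4 * S) ^ 2 := by gcongr
    nlinarith
  linarith

lemma tsum_ind4_le {S : ℝ} (hS : 1 ≤ S) : ∑' w, ind4 S w ≤ ENNReal.ofReal (9 * S) := by
  have h0 : 0 ≤ ⌊4 * S⌋ := Int.floor_nonneg.2 (by linarith)
  rw [tsum_eq_sum (s := Finset.Icc (-⌊4 * S⌋) ⌊4 * S⌋)]
  · calc ∑ w ∈ Finset.Icc (-⌊4 * S⌋) ⌊4 * S⌋, ind4 S w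
        ≤ (Finset.Icc (-⌊4 * S⌋) ⌊4 * S⌋).card • (1 : ℝ≥0∞) :=
          sum_le_card_nsmul _ _ _ fun w _ => by unfold ind4; split_ifs <;> simp
      _ ≤ _ := by
        rw [nsmul_eq_mul, mul_one, Int.card_Icc, ← ENNReal.ofReal_natCast]
        refine ENNReal.ofReal_le_ofReal ?_
        have h1 : (((⌊4 * S⌋ + 1 - -⌊4 * S⌋).toNat : ℕ) : ℤ) = ⌊4 * S⌋ + 1 - -⌊4 * S⌋ :=
          Int.toNat_of_nonneg (by omega)
        have h2 : (((⌊4 * S⌋ + 1 - -⌊4 * S⌋).toNat : ℕ) : ℝ) = 2 * (⌊4 * S⌋ : ℝ) + 1 := by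
          have := congrArg (fun x : ℤ => (x : ℝ)) h1
          push_cast at this
          rw [this]; ring
        have h3 := Int.floor_le (4 * S)
        rw [h2]
        linarith
  · intro w hw
    unfold ind4
    rw [if_neg]
    intro h
    apply hw
    rw [abs_le] at h
    rw [Finset.mem_Icc]
    constructor
    · have : -w ≤ ⌊4 * S⌋ := Int.le_floor.2 (by push_cast; linarith)
      omega
    · exact Int.le_floor.2 h.2

lemma Q_le_T_add {l S : ℝ} (hl : 0 ≤ l) (hS : 0 < S) (s : ℝ≥0∞) (c : ℝ≥0∞) {f : ℤ → ℝ≥0∞}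
    (hf : ∀ w, f w ≤ c * psi S w) (xs : List ℤ) (hxs : ∀ x ∈ xs, |(x : ℝ)| ≤ S)
    (hlen : xs.length * l ≤ S ^ 2) (z : ℤ) :
    Q (xs.length * l) f z ≤ T l s xs f z +
      c * ENNReal.ofReal (54 * S) * Q (xs.length * l) (ind4 S) z := by
  induction xs generalizing z with
  | nil => simp [T, Q_zero]
  | cons x xs ih =>
    have e : (((x :: xs).length : ℕ) : ℝ) * l = l + xs.length * l := by
      simp only [List.length_cons]; push_cast; ring
    have hlen' : xs.length * l ≤ S ^ 2 := by rw [e] at hlen; linarith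
    rw [e, ← Q_Q hl (by positivity), ← Q_Q hl (by positivity), T, ← Q_const_mul, ← Q_add]
    refine Q_mono l (fun w => ?_) z
    split_ifs with h
    · refine le_add_left ?_
      subst h
      calc Q (xs.length * l) f w ≤ Q (xs.length * l) (fun w => c * psi S w) w := Q_mono _ hf w
        _ = c * Q (xs.length * l) (psi S) w := Q_const_mul _ _ _ _
        _ ≤ c * (ENNReal.ofReal (54 * S) * Q (xs.length * l) (ind4 S) w) := by
            gcongr
            exact Q_psi_le_ind hS (by positivity) hlen' (hxs w (by simp))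
        _ = _ := by ring
    · rw [one_mul]
      exact ih (fun y hy => hxs y (by simp [hy])) hlen' w

/-- the cost of changing the path inside a window -/
lemma window_cost {l Γ τ S : ℝ} (hl : 0 < l) (hS : 1 ≤ S) (hΓ : 0 ≤ Γ) (hΓS : Γ ≤ S) (hτ : 1 ≤ τ)
    {s θ : ℝ≥0∞} (hsθ : s + θ = 1) (hθ : ENNReal.ofReal l ≤ ENNReal.ofReal Γ * θ)
    (b j j' c : List ℤ) (hb : ∀ x ∈ b, |(x : ℝ)| ≤ S) (hc : ∀ x ∈ c, |(x : ℝ)| ≤ S)
    (hj' : ∀ x ∈ j', |(x : ℝ)| ≤ S) (hjj : j.length = j'.length) (hj0 : 0 < j'.length)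
    (hjS : j'.length * l ≤ S ^ 2) (hbl : τ ≤ b.length * l) (hcl : τ ≤ c.length * l) :
    ∃ e : ℤ → ℝ≥0∞, (∀ y, T l s (b ++ j ++ c) (fun _ => 1) y
        ≤ T l s (b ++ j' ++ c) (fun _ => 1) y + e y) ∧
      ∑' y, e y ≤ ENNReal.ofReal (3000000 * S ^ 3 / τ) := by
  have hS0 : 0 < S := by linarith
  have hs1 : s ≤ 1 := by rw [← hsθ]; exact le_self_add
  set κ := ENNReal.ofReal (8 / √τ) with hκ
  have hsurv : ∀ xs : List ℤ, (∀ x ∈ xs, |(x : ℝ)| ≤ S) → τ ≤ xs.length * l →
      ∀ z, T l s xs (fun _ => 1) z ≤ κ * psi S z := by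
    intro xs h1 h2 z
    refine (T_one_le hl hS0 hΓ hτ hsθ hθ xs h1 h2 z).trans ?_
    unfold psi
    gcongr
    linarith
  obtain ⟨m, hm⟩ : ∃ m, j'.length = m + 1 := ⟨j'.length - 1, by omega⟩
  have em : (j'.length : ℝ) * l = l + m * l := by rw [hm]; push_cast; ring
  have hmS : m * l ≤ S ^ 2 := by rw [em] at hjS; linarith
  refine ⟨T l s b (Q l fun z => κ * ENNReal.ofReal (54 * S) * Q (m * l) (ind4 S) z),
    fun y => ?_, ?_⟩
  · simp only [T_append]
    rw [← T_add]
    refine T_mono l s b (fun z => ?_) y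
    have h1 := T_le_Q hl.le hs1 j (T l s c fun _ => 1) z
    have h2 := Q_le_T_add hl.le hS0 s κ (hsurv c hc hcl) j' hj' hjS z
    rw [hjj] at h1
    rw [Q_const_mul, Q_Q hl.le (by positivity), ← em]
    exact h1.trans h2
  · have h1 := T_adj hl.le s b (fun _ => 1)
      (fun z => κ * ENNReal.ofReal (54 * S) * Q (m * l) (ind4 S) z)
    simp only [one_mul] at h1
    have h2 : Q l (fun _ => (1 : ℝ≥0∞)) = fun _ => 1 := funext fun z => Q_const hl.le 1 z
    rw [h1, h2]
    have hτ0 : 0 < τ := by linarith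
    calc ∑' z, T l s b.reverse (fun _ => 1) z *
          (κ * ENNReal.ofReal (54 * S) * Q (m * l) (ind4 S) z)
        ≤ ∑' z, κ * psi S z * (κ * ENNReal.ofReal (54 * S) * Q (m * l) (ind4 S) z) := by
          refine ENNReal.tsum_le_tsum fun z => ?_
          gcongr
          exact hsurv _ (by simpa using hb) (by simpa using hbl) z
      _ = κ * κ * ENNReal.ofReal (54 * S) * ∑' z, psi S z * Q (m * l) (ind4 S) z := by
          rw [← ENNReal.tsum_mul_left]
          congr 1; ext z; ring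
      _ = κ * κ * ENNReal.ofReal (54 * S) * ∑' z, Q (m * l) (psi S) z * ind4 S z := by
          rw [Q_adj (by positivity)]
      _ ≤ κ * κ * ENNReal.ofReal (54 * S) * ∑' z, ENNReal.ofReal (70 * S) * ind4 S z := by
          refine mul_le_mul_right (ENNReal.tsum_le_tsum fun z => ?_) _
          unfold ind4
          split_ifs with h
          · gcongr
            exact Q_psi_le hS0 (by positivity) hmS h
          · simp
      _ ≤ κ * κ * ENNReal.ofReal (54 * S) * (ENNReal.ofReal (70 * S) * ENNReal.ofReal (9 * S)) := by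
          rw [ENNReal.tsum_mul_left]
          gcongr
          exact tsum_ind4_le hS
      _ ≤ _ := by
          rw [hκ, ← ENNReal.ofReal_mul (by positivity), ← ENNReal.ofReal_mul (by positivity),
            ← ENNReal.ofReal_mul (by positivity), ← ENNReal.ofReal_mul (by positivity)]
          refine ENNReal.ofReal_le_ofReal ?_
          have h3 : 8 / √τ * (8 / √τ) = 64 / τ := by
            rw [div_mul_div_comm, Real.mul_self_sqrt hτ0.le]; norm_num
          rw [h3, div_mul_eq_mul_div, div_mul_eq_mul_div]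
          refine div_le_div_of_nonneg_right ?_ hτ0.le
          have : 0 < S ^ 3 := by positivity
          nlinarith

end Pool.Agent.Lib.MP_e5e566_pr
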