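import Pool.Agent.Lib.MP_e5e566_pr.Survival

/-!
Sums over discrete paths of the walk, resampling of the path inside a window, and the main
discrete estimate.
-/

open Finset
open scoped ENNReal NNReal

namespace Pool.Agent.Lib.MP_e5e566_pr

/-- expectation of a functional of the list of the next `n` positions -/
noncomputable def EP (l : ℝ) : ℕ → ℤ → (List ℤ → ℝ≥0∞) → ℝ≥0∞
  | 0, _, F => F []
  | n + 1, z, F => Q l (fun w => EP l n w (fun xs => F (w :: xs))) z

/-- all entries are bounded by `R` -/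
def Bd (R : ℝ) (xs : List ℤ) : Prop := ∀ x ∈ xs, |(x : ℝ)| ≤ R

open Classical in
/-- indicator of a proposition -/
noncomputable def ind (p : Prop) : ℝ≥0∞ := if p then 1 else 0

lemma ind_pos {p : Prop} (h : p) : ind p = 1 := by simp [ind, h]
lemma ind_neg {p : Prop} (h : ¬ p) : ind p = 0 := by simp [ind, h]
lemma ind_le_one (p : Prop) : ind p ≤ 1 := by unfold ind; split_ifs <;> simp
lemma ind_mono {p r : Prop} (h : p → r) : ind p ≤ ind r := by
  by_cases hp : p
  · rw [ind_pos hp, ind_pos (h hp)]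
  · rw [ind_neg hp]; exact zero_le
lemma ind_and (p r : Prop) : ind (p ∧ r) = ind p * ind r := by
  by_cases hp : p <;> by_cases hr : r <;> simp [ind, hp, hr]

lemma Bd_append {R : ℝ} {xs ys : List ℤ} : Bd R (xs ++ ys) ↔ Bd R xs ∧ Bd R ys := by
  simp only [Bd, List.mem_append]
  exact ⟨fun h => ⟨fun x hx => h x (Or.inl hx), fun x hx => h x (Or.inr hx)⟩,
    fun h x hx => hx.elim (h.1 x) (h.2 x)⟩

lemma Bd_cons {R : ℝ} {x : ℤ} {xs : List ℤ} : Bd R (x :: xs) ↔ |(x : ℝ)| ≤ R ∧ Bd R xs := by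
  simp [Bd]

lemma Bd.mono {R R' : ℝ} {xs : List ℤ} (h : Bd R xs) (hR : R ≤ R') : Bd R' xs :=
  fun x hx => (h x hx).trans hR

lemma Bd.getLastD {R : ℝ} {xs : List ℤ} (h : Bd R xs) {a : ℤ} (ha : |(a : ℝ)| ≤ R) :
    |((xs.getLastD a : ℤ) : ℝ)| ≤ R := by
  induction xs generalizing a with
  | nil => exact ha
  | cons x xs ih =>
    rw [List.getLastD_cons]
    exact ih (Bd_cons.1 h).2 (Bd_cons.1 h).1

lemma getLastD_append' (xs ys : List ℤ) (a : ℤ) :
    (xs ++ ys).getLastD a = ys.getLastD (xs.getLastD a) := by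
  induction xs generalizing a with
  | nil => rfl
  | cons x xs ih => rw [List.cons_append, List.getLastD_cons, List.getLastD_cons, ih]

lemma getLastD_mem {xs : List ℤ} (h : 0 < xs.length) (a : ℤ) : xs.getLastD a ∈ xs := by
  induction xs generalizing a with
  | nil => simp at h
  | cons x xs ih =>
    rw [List.getLastD_cons]
    cases xs with
    | nil => simp
    | cons y ys => exact List.mem_cons_of_mem _ (ih (by simp) x)

lemma EP_mono (l : ℝ) (n : ℕ) (z : ℤ) {F G : List ℤ → ℝ≥0∞}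
    (h : ∀ xs, xs.length = n → F xs ≤ G xs) : EP l n z F ≤ EP l n z G := by
  induction n generalizing z F G with
  | zero => exact h [] rfl
  | succ n ih => exact Q_mono l (fun w => ih w fun xs hxs => h _ (by simp [hxs])) z

lemma EP_add (l : ℝ) (n : ℕ) (z : ℤ) (F G : List ℤ → ℝ≥0∞) :
    EP l n z (fun xs => F xs + G xs) = EP l n z F + EP l n z G := by
  induction n generalizing z F G with
  | zero => rfl
  | succ n ih => simp only [EP, ih]; exact Q_add l _ _ z

lemma EP_const_mul (l : ℝ) (n : ℕ) (z : ℤ) (c : ℝ≥0∞) (F : List ℤ → ℝ≥0∞) :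
    EP l n z (fun xs => c * F xs) = c * EP l n z F := by
  induction n generalizing z F with
  | zero => rfl
  | succ n ih => simp only [EP, ih]; exact Q_const_mul l _ _ z

lemma EP_zero (l : ℝ) (n : ℕ) (z : ℤ) : EP l n z (fun _ => 0) = 0 := by
  simpa using EP_const_mul l n z 0 (fun _ => 0)

lemma EP_append (l : ℝ) (m n : ℕ) (z : ℤ) (F : List ℤ → ℝ≥0∞) :
    EP l (m + n) z F
      = EP l m z (fun xs => EP l n (xs.getLastD z) (fun ys => F (xs ++ ys))) := by
  induction m generalizing z F with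
  | zero => simp [EP]
  | succ m ih =>
    rw [add_right_comm]
    simp only [EP, ih, List.getLastD_cons, List.cons_append]

lemma EP_last {l : ℝ} (hl : 0 ≤ l) (m : ℕ) (a : ℤ) (φ : ℤ → ℝ≥0∞) :
    EP l m a (fun xs => φ (xs.getLastD a)) = Q (m * l) φ a := by
  induction m generalizing a with
  | zero => simp [EP, Q_zero]
  | succ m ih =>
    simp only [EP, List.getLastD_cons, ih]
    rw [Q_Q hl (by positivity)]
    congr 1; push_cast; ring

/-- evolution killed outside the interval of radius `R` -/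
noncomputable def B (l R : ℝ) : ℕ → (ℤ → ℝ≥0∞) → ℤ → ℝ≥0∞
  | 0, φ => φ
  | m + 1, φ => Q l (fun w => ind (|(w : ℝ)| ≤ R) * B l R m φ w)

lemma EP_B (l R : ℝ) (m : ℕ) (a : ℤ) (φ : ℤ → ℝ≥0∞) :
    EP l m a (fun xs => ind (Bd R xs) * φ (xs.getLastD a)) = B l R m φ a := by
  induction m generalizing a with
  | zero => simp [EP, B, ind, Bd]
  | succ m ih =>
    simp only [EP, B, List.getLastD_cons, Bd_cons, ind_and, mul_assoc, EP_const_mul, ih]

lemma B_eq (l R : ℝ) (m : ℕ) (a : ℤ) (φ : ℤ → ℝ≥0∞) :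
    B l R m φ a = ∑' v, B l R m (fun w => if w = v then 1 else 0) a * φ v := by
  induction m generalizing a with
  | zero =>
    simp only [B]
    rw [tsum_eq_single a]
    · simp
    · intro v hv; simp [hv.symm]
  | succ m ih =>
    simp only [B, Q]
    simp_rw [ih, ← ENNReal.tsum_mul_left, ← ENNReal.tsum_mul_right]
    rw [ENNReal.tsum_comm]
    congr 1; ext v; congr 1; ext b
    ring

lemma q_le_B_add {l R D : ℝ} (hl : 0 ≤ l) (hD : 0 < D) (m : ℕ) (a v : ℤ)
    (hv : |(v : ℝ)| + D ≤ R) :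
    q (m * l) (v - a) ≤ B l R m (fun w => if w = v then 1 else 0) a + ENNReal.ofReal (1 / D) := by
  induction m generalizing a with
  | zero =>
    rw [← Q_single, Nat.cast_zero, zero_mul, Q_zero]
    exact le_self_add
  | succ m ih =>
    have e : ((m + 1 : ℕ) : ℝ) * l = l + m * l := by push_cast; ring
    rw [e, ← Q_q hl (by positivity), B, ← Q_const hl (ENNReal.ofReal (1 / D)) a, ← Q_add]
    refine Q_mono l (fun w => ?_) a
    by_cases h : |(w : ℝ)| ≤ R
    · rw [ind_pos h, one_mul]; exact ih w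
    · refine le_add_left (ENNReal.ofReal_le_ofReal ?_)
      push Not at h
      have h1 : D ≤ |((v - w : ℤ) : ℝ)| := by
        push_cast
        have := abs_sub_abs_le_abs_sub (w : ℝ) v
        rw [abs_sub_comm] at this
        linarith
      have h2 : v - w ≠ 0 := by
        intro h0
        rw [h0] at h1
        simp at h1
        linarith
      exact (ctrwProb_le_inv (by positivity) h2).trans (by gcongr)

lemma le_B {l H : ℝ} (hl : 0 ≤ l) (hH : 1 ≤ H) {m : ℕ} (h1 : 2000 * H ^ 2 ≤ m * l)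
    (h2 : m * l ≤ 4096 * H ^ 2) (a : ℤ) (φ : ℤ → ℝ≥0∞)
    (hφ : ∀ v, φ v ≠ 0 → |(v : ℝ)| ≤ 2 * H ∧ |(v : ℝ) - a| ≤ 3 * H) :
    ENNReal.ofReal (1 / (32 * √(m * l))) * ∑' v, φ v ≤ B l (2050 * H) m φ a := by
  rw [B_eq, ← ENNReal.tsum_mul_left]
  refine ENNReal.tsum_le_tsum fun v => ?_
  by_cases h0 : φ v = 0
  · simp [h0]
  obtain ⟨h3, h4⟩ := hφ v h0
  gcongr
  have hL : 1 ≤ m * l := by nlinarith
  have hs : 0 < √(m * l) := Real.sqrt_pos.2 (by linarith)
  have hs2 : √(m * l) ≤ 64 * H := by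
    rw [Real.sqrt_le_left (by linarith)]; nlinarith
  have h5 := q_le_B_add (R := 2050 * H) (D := 32 * √(m * l)) hl (by positivity) m a v
    (by linarith)
  have h6 : 1 / (16 * √(m * l)) ≤ ctrwProb (m * l) (v - a) := by
    refine le_ctrwProb hL ?_
    push_cast
    rw [← sq_abs]
    have : |(v : ℝ) - a| ^ 2 ≤ (3 * H) ^ 2 := by gcongr
    nlinarith
  have h7 : ENNReal.ofReal (1 / (32 * √(m * l))) + ENNReal.ofReal (1 / (32 * √(m * l)))
      ≤ q (m * l) (v - a) := by
    rw [← ENNReal.ofReal_add (by positivity) (by positivity)]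
    refine ENNReal.ofReal_le_ofReal (le_trans (le_of_eq ?_) h6)
    field_simp; norm_num
  exact (ENNReal.add_le_add_iff_right ENNReal.ofReal_ne_top).1 (h7.trans h5)

lemma B_mono (l R : ℝ) (m : ℕ) {φ ψ : ℤ → ℝ≥0∞} (h : ∀ z, φ z ≤ ψ z) (a : ℤ) :
    B l R m φ a ≤ B l R m ψ a := by
  rw [B_eq, B_eq l R m a ψ]
  exact ENNReal.tsum_le_tsum fun v => by gcongr; exact h v

/-- leaving the interval inside a window is about as likely as staying in it -/
lemma Q_le_out {l : ℝ} (hl : 0 ≤ l) {H : ℕ} (hH : 1 ≤ H) {m : ℕ} (h1 : 2000 * (H : ℝ) ^ 2 ≤ m * l)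
    (h2 : m * l ≤ 4096 * (H : ℝ) ^ 2) {a : ℤ} (ha : |(a : ℝ)| ≤ H) (φ : ℤ → ℝ≥0∞)
    (hφ : ∀ v, φ v ≠ 0 → |(v : ℝ)| ≤ H) :
    Q ((m + m : ℕ) * l) φ a ≤ 131072 * EP l (m + m) a
      (fun j => ind (Bd (2050 * H) j ∧ ¬ Bd H j) * φ (j.getLastD a)) := by
  have hH' : (1 : ℝ) ≤ H := by exact_mod_cast hH
  have hL : 1 ≤ m * l := by nlinarith
  have hm : 0 < m := by
    rcases Nat.eq_zero_or_pos m with rfl | h
    · simp at hL; linarith
    · exact h
  have hs : 0 < √(m * l) := Real.sqrt_pos.2 (by linarith)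
  have hs2 : √(m * l) ≤ 64 * H := by
    rw [Real.sqrt_le_left (by linarith)]; nlinarith
  set σ := ∑' v, φ v with hσ
  set c := ENNReal.ofReal (1 / (32 * √(m * l))) with hc
  have hup : Q ((m + m : ℕ) * l) φ a ≤ ENNReal.ofReal (2 / √(m * l)) * σ := by
    rw [Q_eq_sub, hσ, ← ENNReal.tsum_mul_left]
    refine ENNReal.tsum_le_tsum fun v => ?_
    gcongr
    refine ENNReal.ofReal_le_ofReal ((ctrwProb_le_zero (by positivity) _).trans ?_)
    refine (ctrwProb_zero_anti (l := m * l) (by positivity) ?_).trans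
      (ctrwProb_zero_le (by linarith))
    push_cast
    nlinarith
  let χ : ℤ → ℝ≥0∞ := fun w => if w ∈ Finset.Ioc (H : ℤ) (2 * H) then 1 else 0
  have hχ : ∑' w, χ w = H := by
    rw [tsum_eq_sum (s := Finset.Ioc (H : ℤ) (2 * H)) (fun w hw => by simp only [χ, if_neg hw]),
      sum_congr rfl (g := fun _ => 1) (fun w hw => by simp only [χ, if_pos hw])]
    simp only [sum_const, Int.card_Ioc, nsmul_eq_mul, mul_one]
    congr 1
    omega
  have hχ' : ∀ w, χ w ≠ 0 → (H : ℝ) < w ∧ (w : ℝ) ≤ 2 * H := by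
    intro w hw
    have : w ∈ Finset.Ioc (H : ℤ) (2 * H) := by
      by_contra h
      exact hw (by simp only [χ, if_neg h])
    rw [Finset.mem_Ioc] at this
    exact ⟨by exact_mod_cast this.1, by exact_mod_cast this.2⟩
  have hlow1 : c * (c * σ * H) ≤ B l (2050 * H) m (fun w => χ w * B l (2050 * H) m φ w) a := by
    have h3 : ∀ w, c * σ * χ w ≤ χ w * B l (2050 * H) m φ w := by
      intro w
      by_cases h0 : χ w = 0
      · simp [h0]
      rw [mul_comm]
      gcongr
      obtain ⟨h4, h5⟩ := hχ' w h0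
      refine le_B hl hH' h1 h2 w φ fun v hv => ?_
      have h6 := hφ v hv
      rw [abs_le] at h6 ⊢
      rw [abs_le]
      refine ⟨⟨by linarith, by linarith⟩, by linarith, by linarith⟩
    refine le_trans ?_ (B_mono _ _ _ h3 a)
    have h4 := le_B hl hH' h1 h2 a (fun w => c * σ * χ w) fun v hv => by
      obtain ⟨h4, h5⟩ := hχ' v (right_ne_zero_of_mul hv)
      rw [abs_le] at ha ⊢
      rw [abs_le]
      refine ⟨⟨by linarith, by linarith⟩, by linarith, by linarith⟩
    rwa [ENNReal.tsum_mul_left, hχ] at h4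
  have hlow2 : B l (2050 * H) m (fun w => χ w * B l (2050 * H) m φ w) a ≤ EP l (m + m) a
      (fun j => ind (Bd (2050 * H) j ∧ ¬ Bd H j) * φ (j.getLastD a)) := by
    rw [← EP_B, EP_append]
    refine EP_mono l m a fun j hj => ?_
    rw [← EP_B, ← mul_assoc, ← EP_const_mul]
    refine EP_mono l m _ fun j' _ => ?_
    rw [getLastD_append', ← mul_assoc]
    gcongr
    by_cases h0 : χ (j.getLastD a) = 0
    · rw [h0, mul_zero, zero_mul]; exact zero_le
    obtain ⟨h4, -⟩ := hχ' _ h0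
    have h5 : χ (j.getLastD a) ≤ 1 := by simp only [χ]; split_ifs <;> simp
    calc ind (Bd (2050 * H) j) * χ (j.getLastD a) * ind (Bd (2050 * H) j')
        ≤ ind (Bd (2050 * H) j) * 1 * ind (Bd (2050 * H) j') := by gcongr
      _ = ind (Bd (2050 * H) j ∧ Bd (2050 * H) j') := by rw [mul_one, ind_and]
      _ ≤ _ := by
        refine ind_mono fun h => ⟨Bd_append.2 h, fun h6 => ?_⟩
        have := (Bd_append.1 h6).1 _ (getLastD_mem (by omega) a)
        linarith [le_abs_self ((j.getLastD a : ℤ) : ℝ)]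
  calc Q ((m + m : ℕ) * l) φ a ≤ ENNReal.ofReal (2 / √(m * l)) * σ := hup
    _ ≤ 131072 * (c * c * H) * σ := by
        gcongr
        rw [hc, ← ENNReal.ofReal_natCast, ← ENNReal.ofReal_mul (by positivity),
          ← ENNReal.ofReal_mul (by positivity), ← ENNReal.ofReal_ofNat,
          ← ENNReal.ofReal_mul (by positivity)]
        refine ENNReal.ofReal_le_ofReal ?_
        rw [div_le_iff₀ hs]
        field_simp
        nlinarith
    _ = 131072 * (c * (c * σ * H)) := by ring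
    _ ≤ _ := by gcongr; exact hlow1.trans hlow2

lemma window {l : ℝ} (hl : 0 ≤ l) {H : ℕ} (hH : 1 ≤ H) {m : ℕ} (h1 : 2000 * (H : ℝ) ^ 2 ≤ m * l)
    (h2 : m * l ≤ 4096 * (H : ℝ) ^ 2) (u r : ℕ) (E : ℝ≥0∞) (W : List ℤ → ℝ≥0∞)
    (hW : ∀ b j j' c : List ℤ, Bd H b → Bd H c → Bd (2050 * H) j' → b.length = u →
      j.length = m + m → j'.length = m + m → c.length = r → W (b ++ j ++ c) ≤ E * W (b ++ j' ++ c)) :
    EP l (u + (m + m + r)) 0 (fun xs => ind (Bd H xs) * W xs) ≤ 131072 * E *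
      EP l (u + (m + m + r)) 0
        (fun xs => ind (Bd H (xs.take u) ∧ ¬ Bd H (xs.take (u + (m + m)))) * W xs) := by
  rw [EP_append l u, EP_append l u, ← EP_const_mul]
  refine EP_mono l u 0 fun b hb => ?_
  by_cases hB : Bd H b
  swap
  · have : ∀ ys, ind (Bd H (b ++ ys)) * W (b ++ ys) = 0 := fun ys => by
      rw [ind_neg fun h => hB (Bd_append.1 h).1, zero_mul]
    simp only [this, EP_zero]
    exact zero_le
  set a := b.getLastD 0 with ha
  have ha' : |(a : ℝ)| ≤ H := hB.getLastD (by simp)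
  let φ : ℤ → ℝ≥0∞ := fun z => ind (|(z : ℝ)| ≤ H) *
    ⨆ (j : List ℤ) (_ : j.length = m + m), EP l r z (fun c => ind (Bd H c) * W (b ++ j ++ c))
  have hφ : ∀ v, φ v ≠ 0 → |(v : ℝ)| ≤ H := by
    intro v hv
    by_contra h
    exact hv (by simp only [φ, ind_neg h, zero_mul])
  rw [EP_append l (m + m) r, EP_append l (m + m) r]
  calc EP l (m + m) a (fun j => EP l r (j.getLastD a)
        (fun c => ind (Bd H (b ++ (j ++ c))) * W (b ++ (j ++ c))))
      ≤ EP l (m + m) a (fun j => φ (j.getLastD a)) := by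
        refine EP_mono l _ a fun j hj => ?_
        by_cases hJ : Bd H j
        · simp only [φ]
          rw [ind_pos (hJ.getLastD ha'), one_mul]
          refine le_iSup₂_of_le j hj (EP_mono l r _ fun c _ => ?_)
          rw [List.append_assoc]
          gcongr
          exact ind_mono fun h => (Bd_append.1 (Bd_append.1 h).2).2
        · have : ∀ c, ind (Bd H (b ++ (j ++ c))) * W (b ++ (j ++ c)) = 0 := fun c => by
            rw [ind_neg fun h => hJ (Bd_append.1 (Bd_append.1 h).2).1, zero_mul]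
          simp only [this, EP_zero]
          exact zero_le
    _ = Q ((m + m : ℕ) * l) φ a := EP_last hl _ a φ
    _ ≤ 131072 * EP l (m + m) a
        (fun j => ind (Bd (2050 * H) j ∧ ¬ Bd H j) * φ (j.getLastD a)) :=
        Q_le_out hl hH h1 h2 ha' φ hφ
    _ ≤ _ := by
        rw [mul_assoc, ← EP_const_mul l _ _ E]
        gcongr
        refine EP_mono l _ a fun j' hj' => ?_
        by_cases hJ : Bd (2050 * H) j' ∧ ¬ Bd H j'
        swap
        · rw [ind_neg hJ, zero_mul]; exact zero_le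
        rw [ind_pos hJ, one_mul, ← EP_const_mul]
        refine le_trans (mul_le_of_le_one_left' (ind_le_one _)) (iSup₂_le fun j hj => ?_)
        refine EP_mono l r _ fun c hc => ?_
        by_cases hC : Bd H c
        swap
        · rw [ind_neg hC, zero_mul]; exact zero_le
        have e1 : (b ++ (j' ++ c)).take u = b := by rw [← hb]; simp
        have e2 : (b ++ (j' ++ c)).take (u + (m + m)) = b ++ j' := by
          rw [← List.append_assoc, ← hb, ← hj', ← List.length_append, List.take_left']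
          rfl
        rw [ind_pos hC, one_mul, e1, e2, ind_pos ⟨hB, fun h => hJ.2 (Bd_append.1 h).2⟩, one_mul,
          ← List.append_assoc]
        exact hW b j j' c hB hC hJ.1 hb hj hj' hc

lemma telescope (l : ℝ) (H : ℝ) (n L₀ M J : ℕ) (W : List ℤ → ℝ≥0∞) :
    ∑ i ∈ range J, EP l n 0
        (fun xs => ind (Bd H (xs.take (L₀ + i * M)) ∧ ¬ Bd H (xs.take (L₀ + i * M + M))) * W xs)
      + EP l n 0 (fun xs => ind (Bd H (xs.take (L₀ + J * M))) * W xs) ≤ EP l n 0 W := by
  induction J with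
  | zero =>
    simp only [range_zero, sum_empty, zero_add]
    exact EP_mono l n 0 fun xs _ => mul_le_of_le_one_left' (ind_le_one _)
  | succ J ih =>
    rw [sum_range_succ, add_assoc, ← EP_add]
    refine le_trans ?_ ih
    gcongr
    refine EP_mono l n 0 fun xs _ => ?_
    rw [← add_mul]
    gcongr
    have e : L₀ + (J + 1) * M = L₀ + J * M + M := by ring
    rw [e]
    by_cases h : Bd H (xs.take (L₀ + J * M + M))
    · rw [ind_neg (fun h' => h'.2 h), zero_add]
      refine ind_mono fun h' x hx => h' x ?_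
      exact List.take_subset_take_left _ (by omega) hx
    · rw [ind_neg h, add_zero]
      exact ind_mono fun h' => h'.1

/-- the annealed weight of a discrete path, for traps started in the finite set `F` -/
noncomputable def Wt (ν l : ℝ) (s : ℝ≥0∞) (F : Finset ℤ) (xs : List ℤ) : ℝ≥0∞ :=
  ∏ y ∈ F, ENNReal.ofReal (Real.exp (-(ν * (1 - (T l s xs (fun _ => 1) y).toReal))))

lemma Wt_le {ν l : ℝ} (hν : 0 ≤ ν) (hl : 0 ≤ l) {s : ℝ≥0∞} (hs : s ≤ 1) (F : Finset ℤ)
    {xs ys : List ℤ} {e : ℤ → ℝ≥0∞} {K : ℝ} (hK : 0 ≤ K)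
    (h1 : ∀ y, T l s xs (fun _ => 1) y ≤ T l s ys (fun _ => 1) y + e y)
    (h2 : ∑' y, e y ≤ ENNReal.ofReal K) :
    Wt ν l s F xs ≤ ENNReal.ofReal (Real.exp (ν * K)) * Wt ν l s F ys := by
  unfold Wt
  rw [← ENNReal.ofReal_prod_of_nonneg (fun _ _ => (Real.exp_pos _).le),
    ← ENNReal.ofReal_prod_of_nonneg (fun _ _ => (Real.exp_pos _).le),
    ← ENNReal.ofReal_mul (Real.exp_pos _).le, ← Real.exp_sum, ← Real.exp_sum, ← Real.exp_add]
  refine ENNReal.ofReal_le_ofReal (Real.exp_le_exp.2 ?_)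
  have hsum : ∑ y ∈ F, e y ≤ ENNReal.ofReal K := (ENNReal.sum_le_tsum F).trans h2
  have he : ∀ y, e y ≠ ∞ := fun y =>
    ne_top_of_le_ne_top ENNReal.ofReal_ne_top ((ENNReal.le_tsum y).trans h2)
  have h3 : ∑ y ∈ F, (e y).toReal ≤ K := by
    rw [← ENNReal.toReal_sum fun y _ => he y]
    exact ENNReal.toReal_le_of_le_ofReal hK hsum
  have h4 : ∀ y ∈ F, -(ν * (1 - (T l s xs (fun _ => 1) y).toReal))
      ≤ ν * (e y).toReal + -(ν * (1 - (T l s ys (fun _ => 1) y).toReal)) := by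
    intro y _
    have ht : T l s ys (fun _ => 1) y ≠ ∞ :=
      ne_top_of_le_ne_top ENNReal.one_ne_top (T_one_le_one hl hs ys y)
    have h5 := ENNReal.toReal_mono (ENNReal.add_ne_top.2 ⟨ht, he y⟩) (h1 y)
    rw [ENNReal.toReal_add ht (he y)] at h5
    nlinarith
  refine (sum_le_sum h4).trans ?_
  rw [sum_add_distrib, ← mul_sum]
  gcongr

/-- the main discrete estimate -/
theorem discrete_main {ν lX lY Γ τ S : ℝ} (hν : 0 ≤ ν) (hlX : 0 ≤ lX) (hlY : 0 < lY) (hΓ : 0 ≤ Γ)
    (hΓS : Γ ≤ S) (hτ : 1 ≤ τ) {s θ : ℝ≥0∞} (hsθ : s + θ = 1)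
    (hθ : ENNReal.ofReal lY ≤ ENNReal.ofReal Γ * θ) {H m L₀ J n : ℕ} (hH : 1 ≤ H)
    (h1 : 2000 * (H : ℝ) ^ 2 ≤ m * lX) (h2 : m * lX ≤ 4096 * (H : ℝ) ^ 2)
    (hHS : 2050 * (H : ℝ) ≤ S) (hmS : ((m + m : ℕ) : ℝ) * lY ≤ S ^ 2) (hL : τ ≤ L₀ * lY)
    (hn : L₀ + J * (m + m) + L₀ ≤ n) (F : Finset ℤ) :
    J * EP lX n 0 (fun xs => ind (Bd H xs) * Wt ν lY s F xs)
      ≤ 131072 * ENNReal.ofReal (Real.exp (ν * (3000000 * S ^ 3 / τ))) *
        EP lX n 0 (Wt ν lY s F) := by
  have hH' : (1 : ℝ) ≤ H := by exact_mod_cast hH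
  have hS : 1 ≤ S := by linarith
  have hs1 : s ≤ 1 := by rw [← hsθ]; exact le_self_add
  have hm : 0 < m := by
    rcases Nat.eq_zero_or_pos m with rfl | h
    · simp at h1; nlinarith
    · exact h
  have key : ∀ i ∈ range J, EP lX n 0 (fun xs => ind (Bd H xs) * Wt ν lY s F xs)
      ≤ 131072 * ENNReal.ofReal (Real.exp (ν * (3000000 * S ^ 3 / τ))) * EP lX n 0
        (fun xs => ind (Bd H (xs.take (L₀ + i * (m + m))) ∧
          ¬ Bd H (xs.take (L₀ + i * (m + m) + (m + m)))) * Wt ν lY s F xs) := by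
    intro i hi
    have hi' : i + 1 ≤ J := mem_range.1 hi
    have h3 : (i + 1) * (m + m) ≤ J * (m + m) := Nat.mul_le_mul_right _ hi'
    rw [add_mul, one_mul] at h3
    obtain ⟨r, hr⟩ : ∃ r, n = L₀ + i * (m + m) + (m + m + r) :=
      ⟨n - (L₀ + i * (m + m) + (m + m)), by omega⟩
    have hr' : L₀ ≤ r := by omega
    rw [hr]
    refine window hlX hH h1 h2 _ r _ _ fun b j j' c hb hc hj' hbl hjl hjl' hcl => ?_
    obtain ⟨e, he1, he2⟩ := window_cost hlY hS hΓ hΓS hτ hsθ hθ b j j' c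
      (hb.mono (by linarith)) (hc.mono (by linarith)) (hj'.mono hHS) (by rw [hjl, hjl'])
      (by omega) (by rw [hjl']; exact hmS)
      (hL.trans (by gcongr; omega)) (hL.trans (by gcongr; omega))
    exact Wt_le hν hlY.le hs1 F (by positivity) he1 he2
  have h3 := sum_le_sum key
  rw [sum_const, card_range, nsmul_eq_mul, ← mul_sum] at h3
  refine h3.trans ?_
  gcongr
  exact le_trans le_self_add (telescope lX H n L₀ (m + m) J _)

end Pool.Agent.Lib.MP_e5e566_pr
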